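import Mathlib
import Pool.Agent.Helper79K.TS.Forc

/-!
The covering property `Cover` and the avoidance property `Avoid`. For each of them there are two
definitions: the statement about actual objects, and the same statement in the forcing language of
a preordered set `P` of conditions (names ending in `N`). The connectives of the forcing language
are in `Pool.Agent.Helper79K.TS.Forc`: a sentence is represented by the set of the conditions
which force it, a name of a subset of a set `X` of the ground model is a map from `X` to the sets
of conditions, `meets (z x)` is the sentence `x belongs to z`, and `fground` is used for facts about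
objects of the ground model. For a one-element `P` the forcing versions are equivalent to the actual
statements (`triv_cover` and `triv_avoid` in `Pool.Agent.Helper79K.TS.Triv`).
-/

set_option autoImplicit false

namespace Pool.Agent.Helper79K.TS

open Forc

/-! ### Actual objects -/

/-- The list `u` of truth values is an initial segment of the characteristic function of `z`. -/
def Thru (z : ℕ → Prop) (u : List Bool) : Prop := ∀ i < u.length, (z i ↔ u.getD i false = true)

/-- The subset `z₂` of `ℕ` is the value at `z₁` of the function coded by `c`: a number `n` is in
`z₂` if and only if some member of the finite set `c n` is an initial segment of `z₁`. The functions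
with a code are exactly the continuous functions from the Cantor space into itself. -/
def Codes (c : ℕ → Finset (List Bool)) (z₁ z₂ : ℕ → Prop) : Prop :=
  ∀ n, z₂ n ↔ ∃ u ∈ c n, Thru z₁ u

/-- The covering property: for all subsets `z₁`, `z₂` of `ℕ` one of them is the value at the other
one of a function with a code in the family `c w`, `w` in `W`. -/
def Cover (W : Type) (c : W → ℕ → Finset (List Bool)) : Prop :=
  ∀ z₁ z₂ : ℕ → Prop, ∃ w, Codes (c w) z₁ z₂ ∨ Codes (c w) z₂ z₁

/-- The finite sequence `s` is an initial segment of the infinite sequence `z`. -/
def Pre (z : ℕ → Fin 3) (s : List (Fin 3)) : Prop := ∀ n < s.length, z n = s.getD n 0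

/-- `T` is a set of finite ternary sequences which contains the empty sequence, and for every
member `t` all three one-term extensions of some extension of `t`. -/
def Full (T : List (Fin 3) → Prop) : Prop :=
  T [] ∧ ∀ t, T t → ∃ u, ∀ i, T (t ++ u ++ [i])

/-- The avoidance property: if `A w`, for `w` in `W`, are sets of finite ternary sequences none of
which contains a full set, then there is an infinite ternary sequence which, for every `w`, has an
initial segment outside `A w`. -/
def Avoid (W : Type) : Prop :=
  ∀ A : W → List (Fin 3) → Prop, (∀ w (T : List (Fin 3) → Prop), Full T → ∃ t, T t ∧ ¬ A w t) →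
    ∃ z : ℕ → Fin 3, ∀ w, ∃ s, Pre z s ∧ ¬ A w s

open Cardinal in
/-- The plane is covered by fewer than continuum many graphs and reflected graphs of functions in
`K`. -/
def Covered (K : Set (ℝ → ℝ)) : Prop :=
  ∃ F : Set (ℝ → ℝ), F ⊆ K ∧ #F < 𝔠 ∧ ∀ x y : ℝ, ∃ f ∈ F, f x = y ∨ f y = x

/-! ### Names -/

variable {P : Type} [Preorder P]

/-- The forcing version of `Thru`. -/
def ThruN (z : ℕ → Set P) (u : List Bool) : Set P :=
  fall fun i => fall fun _ : i < u.length => fiff (meets (z i)) (fground (u.getD i false = true))

/-- The forcing version of `Codes`. -/
def CodesN (c : ℕ → Finset (List Bool)) (z₁ z₂ : ℕ → Set P) : Set P :=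
  fall fun n => fiff (meets (z₂ n)) (fex fun u : List Bool => fand (fground (u ∈ c n)) (ThruN z₁ u))

/-- The forcing version of `Cover`. -/
def CoverN (W : Type) (c : W → ℕ → Finset (List Bool)) : Set P :=
  fall fun z₁ : ℕ → Set P => fall fun z₂ : ℕ → Set P =>
    fex fun w => for' (CodesN (c w) z₁ z₂) (CodesN (c w) z₂ z₁)

/-- The forcing version of: `z` is an infinite ternary sequence. -/
def IsSeqN (z : ℕ → Fin 3 → Set P) : Set P :=
  fand (fall fun n => fex fun i => meets (z n i))
    (fall fun n => fall fun i => fall fun j =>
      fimp (fand (meets (z n i)) (meets (z n j))) (fground (i = j)))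

/-- The forcing version of: `s` is an initial segment of `z`. -/
def PreN (z : ℕ → Fin 3 → Set P) (s : List (Fin 3)) : Set P :=
  fall fun n => fall fun _ : n < s.length => meets (z n (s.getD n 0))

/-- The forcing version of `Full`. -/
def FullN (T : List (Fin 3) → Set P) : Set P :=
  fand (meets (T [])) (fall fun t => fimp (meets (T t))
    (fex fun u : List (Fin 3) => fall fun i : Fin 3 => meets (T (t ++ u ++ [i]))))

/-- The forcing version of `Avoid`. -/
def AvoidN (P : Type) [Preorder P] (W : Type) : Set P :=
  fall fun A : W → List (Fin 3) → Set P =>
    fimp
      (fall fun w => fall fun T : List (Fin 3) → Set P =>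
        fimp (FullN T) (fex fun t => fand (meets (T t)) (fnot (meets (A w t)))))
      (fex fun z : ℕ → Fin 3 → Set P => fand (IsSeqN z)
        (fall fun w => fex fun s : List (Fin 3) => fand (PreN z s) (fnot (meets (A w s)))))

end Pool.Agent.Helper79K.TS
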