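import Pool.Agent.Helper79K.TS.Split
import Pool.Agent.Helper79K.TS.Sent

/-!
Reading of names by continuous functions; the covering property is forced.
-/

set_option autoImplicit false

namespace Pool.Agent.Helper79K.TS

open Set Filter Topology
open Forc

variable {I : Type}

theorem continuous_of_agree {X : Type} [TopologicalSpace X] (f : Pt I → X) (E : Finset I) (k : ℕ)
    (h : ∀ x y, Agree E k x y → f x = f y) : Continuous f := by
  rw [continuous_iff_continuousAt]
  intro x₀
  have h2 : {x | Agree E k x x₀} ∈ 𝓝 x₀ := by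
    have h3 : {x | Agree E k x x₀} =
        ⋂ γ ∈ E, ⋂ i ∈ Finset.range k, {x : Pt I | x γ i = x₀ γ i} := by
      ext x
      simp [Agree]
    rw [h3, biInter_finset_mem]
    intro γ _
    rw [biInter_finset_mem]
    intro i _
    have h4 : Continuous fun x : Pt I => x γ i := (continuous_apply i).comp (continuous_apply γ)
    exact ((isOpen_discrete {x₀ γ i}).preimage h4).mem_nhds rfl
  apply tendsto_nhds_of_eventually_eq
  filter_upwards [h2] with x hx
  exact h x x₀ hx

variable [LinearOrder I]

open Cond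

/-- local form of factorization -/
theorem exists_factor (r : Cond I) (x₀ : Pt I) (E : Finset I) (k : ℕ) :
    ∃ (E' : Finset I) (k' : ℕ), ∀ E'' k'', E' ⊆ E'' → k' ≤ k'' →
      r * sh E'' k'' x₀ ≤ sh E k (r.f x₀) := by
  obtain ⟨E', k', -, h⟩ := r.exists_modulus E k (B := Set.univ) (subset_univ _)
    (fun _ _ _ _ => mem_univ _)
  refine ⟨E', k', fun E'' k'' hE hk => ?_⟩
  obtain ⟨s, hs, -⟩ := factor (r * sh E'' k'' x₀) (E := E) (k := k) (τ := r.f x₀) (fun x => by
    refine h _ _ ?_
    have h1 : Agree E'' k'' ((sh E'' k'' x₀).f x) x₀ := agree_shf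
    exact h1.mono hE hk)
  exact ⟨s, hs⟩

theorem le_mul_of_le {p q r : Cond I} (h : q ≤ r) : p * q ≤ p * r := by
  obtain ⟨s, rfl⟩ := h
  exact ⟨s, (mul_assoc _ _ _).symm⟩

variable [WellFoundedLT I]

/-- a sequence of sentences is read continuously -/
theorem exists_read (p : Cond I) (φ : ℕ → Set (Cond I)) (hφ : ∀ n q r, q ∈ φ n → r ≤ q → r ∈ φ n) :
    ∃ t : Cond I, ∀ n, ∃ (E : Finset I) (k : ℕ), ∀ τ,
      p * t * sh E k τ ∈ φ n ∨ p * t * sh E k τ ∈ fnot (φ n) := by
  obtain ⟨t, E, k, -, -, -, -, -, -, h, -⟩ := fusion (I := I) Set.univ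
    (fun _ _ _ _ => mem_univ _)
    (fun n E k T => ∀ τ, p * T * sh E k τ ∈ φ n ∨ p * T * sh E k τ ∈ fnot (φ n))
    (fun n E k T _ _ => by
      classical
      obtain ⟨L, hL⟩ := exists_reps E k
      have key : ∀ Q : Finset (Pt I), ∃ s : Cond I, Pure E k s ∧ ∀ τ ∈ Q,
          p * (T * s) * sh E k τ ∈ φ n ∨ p * (T * s) * sh E k τ ∈ fnot (φ n) := by
        intro Q
        induction Q using Finset.induction_on with
        | empty => exact ⟨1, pure_one _ _, by simp⟩
        | insert τ₀ Q _ ih =>
          obtain ⟨s, hs, hs'⟩ := ih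
          obtain ⟨s₀, hs₀⟩ : ∃ s₀ : Cond I, p * (T * s) * sh E k τ₀ * s₀ ∈ φ n ∨
              p * (T * s) * sh E k τ₀ * s₀ ∈ fnot (φ n) := by
            by_cases h : p * (T * s) * sh E k τ₀ ∈ fnot (φ n)
            · exact ⟨1, Or.inr (by rwa [mul_one])⟩
            · rw [mem_fnot] at h
              push Not at h
              obtain ⟨q, ⟨s₀, rfl⟩, hq⟩ := h
              exact ⟨s₀, Or.inl hq⟩
          refine ⟨s * am E k τ₀ s₀, hs.mul (pure_am _ _ _ _), fun τ hτ => ?_⟩
          rcases Finset.mem_insert.1 hτ with rfl | hτ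
          · have h1 : p * (T * (s * am E k τ s₀)) * sh E k τ = p * (T * s) * sh E k τ * s₀ := by
              have h2 := am_mul_sh E k τ s₀
              calc p * (T * (s * am E k τ s₀)) * sh E k τ
                  = p * (T * s) * (am E k τ s₀ * sh E k τ) := by simp only [mul_assoc]
                _ = p * (T * s) * (sh E k τ * s₀) := by rw [h2]
                _ = _ := by simp only [mul_assoc]
            rw [h1]
            exact hs₀
          · obtain ⟨u, hu⟩ := (pure_am E k τ₀ s₀).comm τ
            have h1 : p * (T * (s * am E k τ₀ s₀)) * sh E k τ ≤ p * (T * s) * sh E k τ := by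
              refine ⟨u, ?_⟩
              calc p * (T * (s * am E k τ₀ s₀)) * sh E k τ
                  = p * (T * s) * (am E k τ₀ s₀ * sh E k τ) := by simp only [mul_assoc]
                _ = p * (T * s) * (sh E k τ * u) := by rw [hu]
                _ = _ := by simp only [mul_assoc]
            rcases hs' τ hτ with h2 | h2
            · exact Or.inl (hφ n _ _ h2 h1)
            · exact Or.inr (fnot_down h2 h1)
      obtain ⟨s, hs, hs'⟩ := key L
      refine ⟨s, subset_univ _, hs, fun τ => ?_⟩
      obtain ⟨τ', hτ', h⟩ := hL τ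
      rw [sh_congr h]
      exact hs' τ' hτ')
    (fun n E k T s hT hs τ => by
      obtain ⟨u, hu⟩ := hs.comm τ
      have h1 : p * (T * s) * sh E k τ ≤ p * T * sh E k τ := by
        refine ⟨u, ?_⟩
        calc p * (T * s) * sh E k τ = p * T * (s * sh E k τ) := by simp only [mul_assoc]
          _ = p * T * (sh E k τ * u) := by rw [hu]
          _ = _ := by simp only [mul_assoc]
      rcases hT τ with h2 | h2
      · exact Or.inl (hφ n _ _ h2 h1)
      · exact Or.inr (fnot_down h2 h1))
    ∅ countable_empty (empty_subset _)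
  exact ⟨t, fun n => ⟨E n, k n, h n⟩⟩

/-- the continuous function which gives the truth values -/
theorem exists_read' (p : Cond I) (φ : ℕ → Set (Cond I))
    (hφ : ∀ n q r, q ∈ φ n → r ≤ q → r ∈ φ n) :
    ∃ (t : Cond I) (F : Pt I → ℕ → Bool), Continuous F ∧ ∀ (r : Cond I) (x : Pt I) (N : ℕ),
      ∃ (E : Finset I) (k : ℕ), ∀ n < N,
        (F (r.f x) n = true → p * t * r * sh E k x ∈ φ n) ∧
        (F (r.f x) n = false → p * t * r * sh E k x ∈ fnot (φ n)) := by
  classical
  obtain ⟨t, h⟩ := exists_read p φ hφ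
  choose E k h using h
  let F : Pt I → ℕ → Bool := fun x n => decide (p * t * sh (E n) (k n) x ∈ φ n)
  refine ⟨t, F, ?_, ?_⟩
  · refine continuous_pi fun n => ?_
    apply continuous_of_agree _ (E n) (k n)
    intro x y hxy
    simp only [F]
    rw [sh_congr hxy]
  · intro r x N
    choose E' k' h' using fun n => exists_factor r x (E n) (k n)
    refine ⟨(Finset.range N).biUnion E', (Finset.range N).sup k', fun n hn => ?_⟩
    have h1 : p * t * r * sh ((Finset.range N).biUnion E') ((Finset.range N).sup k') x ≤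
        p * t * sh (E n) (k n) (r.f x) := by
      rw [mul_assoc (p * t)]
      apply le_mul_of_le
      exact h' n _ _ (Finset.subset_biUnion_of_mem E' (Finset.mem_range.2 hn))
        (Finset.le_sup (f := k') (Finset.mem_range.2 hn))
    constructor
    · intro h2
      exact hφ n _ _ (of_decide_eq_true h2) h1
    · intro h2
      have h3 : p * t * sh (E n) (k n) (r.f x) ∉ φ n := of_decide_eq_false h2
      exact fnot_down ((h n (r.f x)).resolve_left h3) h1

omit [LinearOrder I] [WellFoundedLT I] in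
/-- modulus of a functional dependence -/
theorem exists_fun_modulus {F H : Pt I → ℕ → Bool} (hF : Continuous F) (hH : Continuous H)
    (h : ∀ x y, F x = F y → H x = H y) (n : ℕ) :
    ∃ m, ∀ x y, (∀ i < m, F x i = F y i) → H x n = H y n := by
  by_contra hcon
  push Not at hcon
  choose x y hxy hne using hcon
  -- compactness of the set of the pairs of points
  let K : ℕ → Set (Pt I × Pt I) := fun m => {z | (∀ i < m, F z.1 i = F z.2 i) ∧ H z.1 n ≠ H z.2 n}
  have hKc : ∀ m, IsClosed (K m) := by
    intro m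
    have h1 : K m = (⋂ i ∈ Finset.range m, {z : Pt I × Pt I | F z.1 i = F z.2 i}) ∩
        {z | H z.1 n = H z.2 n}ᶜ := by
      ext z
      simp [K]
    rw [h1]
    apply IsClosed.inter
    · refine isClosed_biInter fun i _ => isClosed_eq ?_ ?_
      · exact (continuous_apply i).comp (hF.comp continuous_fst)
      · exact (continuous_apply i).comp (hF.comp continuous_snd)
    · have h2 : Continuous fun z : Pt I × Pt I => (H z.1 n, H z.2 n) :=
        ((continuous_apply n).comp (hH.comp continuous_fst)).prodMk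
          ((continuous_apply n).comp (hH.comp continuous_snd))
      have h3 : {z : Pt I × Pt I | H z.1 n = H z.2 n}ᶜ =
          (fun z : Pt I × Pt I => (H z.1 n, H z.2 n)) ⁻¹' {b | b.1 ≠ b.2} := by
        ext z
        simp
      rw [h3]
      exact (isClosed_discrete _).preimage h2
  have hne' : ∀ m, (K m).Nonempty := fun m => ⟨(x m, y m), hxy m, hne m⟩
  have hmono : ∀ m, K (m + 1) ⊆ K m := fun m z hz =>
    ⟨fun i hi => hz.1 i (hi.trans (Nat.lt_succ_self m)), hz.2⟩
  obtain ⟨z, hz⟩ := IsCompact.nonempty_iInter_of_sequence_nonempty_isCompact_isClosed K hmono hne'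
    (hKc 0).isCompact hKc
  rw [mem_iInter] at hz
  apply (hz 0).2
  rw [h z.1 z.2 (funext fun i => (hz (i + 1)).1 i (Nat.lt_succ_self i))]

/-- all lists of truth values of length `m` -/
def allLists (m : ℕ) : Finset (List Bool) :=
  (Finset.univ : Finset (Fin m → Bool)).image List.ofFn

theorem mem_allLists {m : ℕ} (f : ℕ → Bool) : List.ofFn (fun i : Fin m => f i) ∈ allLists m :=
  Finset.mem_image_of_mem _ (Finset.mem_univ _)

theorem getD_ofFn {m : ℕ} (f : ℕ → Bool) {i : ℕ} (hi : i < m) :
    (List.ofFn (fun i : Fin m => f i)).getD i false = f i := by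
  rw [List.getD_eq_getElem _ _ (by simpa using hi)]
  simp

omit [WellFoundedLT I] in
/-- one half of the covering property -/
theorem codes_forced {p t : Cond I} {F H : Pt I → ℕ → Bool} {z₁ z₂ : ℕ → Set (Cond I)}
    (hF : Continuous F) (hH : Continuous H) (r : Cond I)
    (hdec : ∀ (s : Cond I) (x : Pt I) (N : ℕ), ∃ q ≤ p * t * s, ∀ n < N,
      ((F (s.f x) n = true → q ∈ meets (z₁ n)) ∧ (F (s.f x) n = false → q ∈ fnot (meets (z₁ n)))) ∧
      ((H (s.f x) n = true → q ∈ meets (z₂ n)) ∧ (H (s.f x) n = false → q ∈ fnot (meets (z₂ n)))))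
    (h : ∀ x y, F (r.f x) = F (r.f y) → H (r.f x) = H (r.f y)) :
    ∃ c : ℕ → Finset (List Bool), p * t * r ∈ CodesN c z₁ z₂ := by
  classical
  choose m hm using exists_fun_modulus (hF.comp r.cont) (hH.comp r.cont) h
  let lst : ℕ → Pt I → List Bool := fun n x => List.ofFn fun i : Fin (m n) => F (r.f x) i
  let c : ℕ → Finset (List Bool) := fun n =>
    (allLists (m n)).filter fun u => ∃ x, u = lst n x ∧ H (r.f x) n = true
  refine ⟨c, fun n => ⟨?_, ?_⟩⟩
  · rw [mem_fimp]
    rintro q ⟨s, rfl⟩ hq
    let x₀ : Pt I := fun _ _ => 0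
    obtain ⟨q', hq', hdec'⟩ := hdec (r * s) x₀ (max (m n) (n + 1))
    have hq'' : q' ≤ p * t * r * s := by rwa [mul_assoc (p * t)]
    refine ⟨q', hq'', ?_⟩
    have hHn : H (r.f (s.f x₀)) n = true := by
      by_contra hcon
      have h1 := (hdec' n (by omega)).2.2 (by simpa using hcon)
      exact h1 q' le_rfl (meets_down hq hq'')
    rw [mem_fex]
    intro q₁ hq₁
    refine ⟨q₁, le_rfl, lst n (s.f x₀), ?_, ?_⟩
    · change lst n (s.f x₀) ∈ c n
      exact Finset.mem_filter.2 ⟨mem_allLists (F (r.f (s.f x₀))), s.f x₀, rfl, hHn⟩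
    · intro i hi
      have hi' : i < m n := by simpa [lst] using hi
      have hval : (lst n (s.f x₀)).getD i false = F (r.f (s.f x₀)) i := getD_ofFn _ hi'
      have hd := (hdec' i (by omega)).1
      rw [hval]
      constructor
      · rw [mem_fimp]
        intro q₂ hq₂ hq₂'
        refine ⟨q₂, le_rfl, ?_⟩
        change F (r.f (s.f x₀)) i = true
        by_contra hcon
        have h1 := hd.2 (by simpa using hcon)
        exact h1 q₂ (hq₂.trans hq₁) hq₂'
      · rw [mem_fimp]
        intro q₂ hq₂ hq₂'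
        exact ⟨q₂, le_rfl, meets_down (hd.1 hq₂') (hq₂.trans hq₁)⟩
  · rw [mem_fimp]
    rintro q hq hex
    obtain ⟨q₁, hq₁, u, hu, hthru⟩ := mem_fex.1 hex q le_rfl
    have hu' : u ∈ c n := hu
    obtain ⟨-, x, hux, hHx⟩ := Finset.mem_filter.1 hu'
    obtain ⟨s, rfl⟩ := hq₁.trans hq
    let x₀ : Pt I := fun _ _ => 0
    obtain ⟨q', hq', hdec'⟩ := hdec (r * s) x₀ (max (m n) (n + 1))
    have hq'' : q' ≤ p * t * r * s := by rwa [mul_assoc (p * t)]
    refine ⟨q', hq''.trans hq₁, ?_⟩
    have hagree : ∀ i < m n, F (r.f (s.f x₀)) i = F (r.f x) i := by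
      intro i hi
      have hlen : i < u.length := by
        rw [hux]
        simpa [lst] using hi
      have hval : u.getD i false = F (r.f x) i := by
        rw [hux]
        exact getD_ofFn _ hi
      have h1 := hthru i hlen
      rw [hval] at h1
      have hd := (hdec' i (by omega)).1
      rcases Bool.eq_false_or_eq_true (F (r.f (s.f x₀)) i) with h2 | h2
      · obtain ⟨_, _, h3⟩ := mem_fimp.1 h1.1 q' hq'' (hd.1 h2)
        rw [h2]
        exact (show F (r.f x) i = true from h3).symm
      · rw [h2]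
        by_contra hcon
        have h3 : F (r.f x) i = true := by
          rcases Bool.eq_false_or_eq_true (F (r.f x) i) with h4 | h4
          · exact h4
          · exact absurd h4.symm hcon
        obtain ⟨q₂, hq₂, h4⟩ := mem_fimp.1 h1.2 q' hq'' h3
        exact hd.2 h2 q₂ hq₂ h4
    have h2 := hm n (s.f x₀) x hagree
    simp only [Function.comp] at h2
    exact (hdec' n (by omega)).2.1 (h2.trans hHx)

/-- **The covering property is forced.** -/
theorem cover_forced (p : Cond I) : p ∈ CoverN (P := Cond I) (ℕ → Finset (List Bool)) id := by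
  intro z₁ z₂
  rw [mem_fex]
  intro p _
  -- read both names
  let φ : ℕ → Set (Cond I) := fun n => if n % 2 = 0 then meets (z₁ (n / 2)) else meets (z₂ (n / 2))
  have hφ : ∀ n q r, q ∈ φ n → r ≤ q → r ∈ φ n := by
    intro n q r hq hr
    simp only [φ] at hq ⊢
    split_ifs at hq ⊢ with h
    · exact meets_down hq hr
    · exact meets_down hq hr
  have hφ0 : ∀ n, φ (2 * n) = meets (z₁ n) := by
    intro n
    simp only [φ]
    rw [if_pos (by omega)]
    congr 2
    omega
  have hφ1 : ∀ n, φ (2 * n + 1) = meets (z₂ n) := by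
    intro n
    simp only [φ]
    rw [if_neg (by omega)]
    congr 2
    omega
  obtain ⟨t, G, hG, hdec⟩ := exists_read' p φ hφ
  let F : Pt I → ℕ → Bool := fun x n => G x (2 * n)
  let H : Pt I → ℕ → Bool := fun x n => G x (2 * n + 1)
  have hF : Continuous F := continuous_pi fun n => (continuous_apply (2 * n)).comp hG
  have hH : Continuous H := continuous_pi fun n => (continuous_apply (2 * n + 1)).comp hG
  have hdec1 : ∀ (s : Cond I) (x : Pt I) (N : ℕ), ∃ q ≤ p * t * s, ∀ n < N,
      ((F (s.f x) n = true → q ∈ meets (z₁ n)) ∧ (F (s.f x) n = false → q ∈ fnot (meets (z₁ n)))) ∧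
      ((H (s.f x) n = true → q ∈ meets (z₂ n)) ∧
        (H (s.f x) n = false → q ∈ fnot (meets (z₂ n)))) := by
    intro s x N
    obtain ⟨E, k, h⟩ := hdec s x (2 * N)
    refine ⟨p * t * s * sh E k x, ⟨_, rfl⟩, fun n hn => ⟨?_, ?_⟩⟩
    · have h1 := h (2 * n) (by omega)
      rw [hφ0] at h1
      exact h1
    · have h1 := h (2 * n + 1) (by omega)
      rw [hφ1] at h1
      exact h1
  obtain ⟨r, hr | hr⟩ := dichotomy hF hH
  · obtain ⟨c, hc⟩ := codes_forced hF hH r hdec1 hr
    refine ⟨p * t * r, ⟨t * r, mul_assoc _ _ _⟩, c, ?_⟩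
    intro q hq h
    exact h.1 q le_rfl (fun n => ⟨fimp_down (hc n).1 hq, fimp_down (hc n).2 hq⟩)
  · obtain ⟨c, hc⟩ := codes_forced hH hF r (fun s x N => by
      obtain ⟨q, hq, h⟩ := hdec1 s x N
      exact ⟨q, hq, fun n hn => ⟨(h n hn).2, (h n hn).1⟩⟩) hr
    refine ⟨p * t * r, ⟨t * r, mul_assoc _ _ _⟩, c, ?_⟩
    intro q hq h
    exact h.2 q le_rfl (fun n => ⟨fimp_down (hc n).1 hq, fimp_down (hc n).2 hq⟩)

end Pool.Agent.Helper79K.TS
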