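import Pool.Agent.Helper79K.TS.Count
import Pool.Agent.Helper79K.TS.Read

/-!
The avoidance property is forced.
-/

set_option autoImplicit false

namespace Pool.Agent.Helper79K.TS

open Set Cardinal
open Forc

open Cond

variable {I : Type} [LinearOrder I]

theorem mem_Iio_low (α : I) : ∀ γ ∈ Iio α, ∀ β ≤ γ, β ∈ Iio α :=
  fun _ hγ _ hβ => lt_of_le_of_lt hβ hγ

/-- a condition with support below `α` can be moved to the front -/
theorem exists_move (α : I) (p c : Cond I) (hc : c.supp ⊆ Iio α) :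
    ∃ u : Cond I, p * c = res (Iio α) p * c * u := by
  obtain ⟨u, hu⟩ := exists_comm (B := Iio α) (res (Iio α)ᶜ p) c
    (fun x γ hγ => res_f_not (by simpa using hγ)) hc (mem_Iio_low α)
  refine ⟨u, ?_⟩
  calc p * c = res (Iio α) p * res (Iio α)ᶜ p * c := by rw [res_mul_res (mem_Iio_low α)]
    _ = res (Iio α) p * (res (Iio α)ᶜ p * c) := by rw [mul_assoc]
    _ = _ := by rw [hu, mul_assoc]

/-- for a closure point `α` the negative information about `N` depends only on the part below `α`
of a condition -/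
theorem res_fnot {N : Set (Cond I)} {α : I}
    (hα : ∀ b : Cond I, b.supp ⊆ Iio α → (∃ r, b * r ∈ meets N) →
      ∃ c : Cond I, c.supp ⊆ Iio α ∧ b * c ∈ meets N)
    {p : Cond I} (hp : p ∈ fnot (meets N)) : res (Iio α) p ∈ fnot (meets N) := by
  rintro q ⟨r, rfl⟩ hq
  obtain ⟨c, hc, hc'⟩ := hα (res (Iio α) p)
    ((supp_res _ _).trans inter_subset_left) ⟨r, hq⟩
  obtain ⟨u, hu⟩ := exists_move α p c hc
  apply hp (p * c) (mul_le _ _)
  rw [hu]
  exact meets_down hc' (mul_le _ _)

/-- `t` is an initial segment of `x` -/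
def Ext (x : ℕ → Fin 3) (t : List (Fin 3)) : Prop := ∀ i < t.length, x i = t.getD i 0

/-- the name of the tree of the possible values of the generic sequence at `α` -/
def Tn (α : I) (q : Cond I) (t : List (Fin 3)) : Set (Cond I) :=
  {r | ∃ r', r = q * r' ∧ ∃ (k : ℕ) (θ : ℕ → Fin 3), ∀ x y : Pt I,
    (∀ γ < α, y γ = r'.f x γ) → (∀ i < k, y α i = θ i) → Ext (q.f y α) t}

theorem Tn_down {α : I} {q : Cond I} {t : List (Fin 3)} {r s : Cond I} (h : r ∈ Tn α q t)
    (hs : s ≤ r) : s ∈ Tn α q t := by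
  obtain ⟨r', rfl, k, θ, h⟩ := h
  obtain ⟨u, rfl⟩ := hs
  exact ⟨r' * u, mul_assoc _ _ _, k, θ, fun x y h1 h2 => h (u.f x) y h1 h2⟩

theorem ext_append {x : ℕ → Fin 3} {t : List (Fin 3)} (h : Ext x t) {m : ℕ} (hm : t.length ≤ m) :
    ∃ u : List (Fin 3), (t ++ u).length = m ∧ Ext x (t ++ u) ∧
      ∀ y : ℕ → Fin 3, (∀ i < m, y i = x i) → ∀ j, y m = j → Ext y (t ++ u ++ [j]) := by
  let u : List (Fin 3) := (List.range (m - t.length)).map fun i => x (t.length + i)
  have hlen : (t ++ u).length = m := by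
    simp [u]
    omega
  have hval : ∀ i < m, (t ++ u).getD i 0 = x i := by
    intro i hi
    by_cases hi' : i < t.length
    · rw [List.getD_append _ _ _ _ hi']
      exact (h i hi').symm
    · rw [List.getD_append_right _ _ _ _ (not_lt.1 hi')]
      simp only [u]
      rw [List.getD_eq_getElem _ _ (by simp; omega)]
      simp
      congr 1
      omega
  refine ⟨u, hlen, ?_, ?_⟩
  · intro i hi
    rw [hlen] at hi
    exact (hval i hi).symm
  · intro y hy j hj i hi
    rw [List.length_append, hlen, List.length_singleton] at hi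
    rcases Nat.lt_succ_iff_lt_or_eq.1 hi with hi' | rfl
    · rw [List.getD_append _ _ _ _ (by rw [hlen]; exact hi'), hval i hi', hy i hi']
    · rw [List.getD_append_right _ _ _ _ hlen.le, hlen, Nat.sub_self]
      exact hj

open Classical in
/-- the value of `x` at `α` is replaced -/
noncomputable def upd (α : I) (x : Pt I) (z : ℕ → Fin 3) : Pt I := Function.update x α z

theorem upd_self (α : I) (x : Pt I) (z : ℕ → Fin 3) : upd α x z α = z := by
  simp [upd]

theorem upd_ne {α : I} {x : Pt I} {z : ℕ → Fin 3} {γ : I} (h : γ ≠ α) : upd α x z γ = x γ := by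
  simp [upd, h]

/-- a splitting position -/
theorem exists_split (q : Cond I) (α : I) (x : Pt I) (k : ℕ) (θ : ℕ → Fin 3) :
    ∃ m, ∀ j : Fin 3,
      (∀ i < m, q.f (upd α x fun i => if i < k then θ i else if i = k then j else 0) α i =
        q.f (upd α x fun i => if i < k then θ i else 0) α i) ∧
      q.f (upd α x fun i => if i < k then θ i else if i = k then j else 0) α m = j := by
  let y : Fin 3 → Pt I := fun j => upd α x fun i => if i < k then θ i else if i = k then j else 0
  have hy0 : (upd α x fun i => if i < k then θ i else 0) = y 0 := by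
    simp only [y]
    congr 1
    funext i
    split_ifs <;> rfl
  have hlow : ∀ j j', ∀ β < α, y j β = y j' β := by
    intro j j' β hβ
    simp only [y]
    rw [upd_ne hβ.ne, upd_ne hβ.ne]
  have hlow2 : ∀ j j', ∀ i < k, y j α i = y j' α i := by
    intro j j' i hi
    simp only [y]
    rw [upd_self, upd_self, if_pos hi, if_pos hi]
  have hval : ∀ j, y j α k = j := by
    intro j
    simp only [y]
    rw [upd_self, if_neg (lt_irrefl k), if_pos rfl]
  have hne : ∀ j j', j ≠ j' → y j α k ≠ y j' α k := by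
    intro j j' h
    rw [hval, hval]
    exact h
  obtain ⟨m1, h11, h12, h13⟩ := q.split α (y 0) (y 1) k (hlow _ _) (hlow2 _ _)
    (hne _ _ (by decide))
  obtain ⟨m2, h21, h22, h23⟩ := q.split α (y 0) (y 2) k (hlow _ _) (hlow2 _ _)
    (hne _ _ (by decide))
  obtain ⟨m3, h31, h32, h33⟩ := q.split α (y 1) (y 2) k (hlow _ _) (hlow2 _ _)
    (hne _ _ (by decide))
  simp only [hval] at h12 h13 h22 h23 h32 h33
  have hm : m1 = m2 := by
    rcases lt_trichotomy m1 m2 with h | h | h
    · -- at `m1` the values of `0` and `2` agree, those of `0` and `1` do not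
      exfalso
      have h1 := h21 m1 h
      rcases lt_trichotomy m1 m3 with h' | h' | h'
      · have h2 := h31 m1 h'
        rw [h13] at h2
        rw [h12, ← h2] at h1
        exact absurd h1 (by decide)
      · rw [← h'] at h33
        rw [h12, h33] at h1
        exact absurd h1 (by decide)
      · have h2 := h21 m3 (h'.trans h)
        have h3 := h11 m3 h'
        rw [h33] at h2
        rw [h32, h2] at h3
        exact absurd h3 (by decide)
    · exact h
    · exfalso
      have h1 := h11 m2 h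
      rcases lt_trichotomy m2 m3 with h' | h' | h'
      · have h2 := h31 m2 h'
        rw [h23] at h2
        rw [h22, h2] at h1
        exact absurd h1 (by decide)
      · rw [← h'] at h32
        rw [h22, h32] at h1
        exact absurd h1 (by decide)
      · have h2 := h21 m3 h'
        have h3 := h11 m3 (h'.trans h)
        rw [h33] at h2
        rw [h32, h2] at h3
        exact absurd h3 (by decide)
  subst hm
  refine ⟨m1, fun j => ?_⟩
  rw [hy0]
  change (∀ i < m1, q.f (y j) α i = q.f (y 0) α i) ∧ q.f (y j) α m1 = j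
  fin_cases j
  · exact ⟨fun _ _ => rfl, h12⟩
  · exact ⟨fun i hi => (h11 i hi).symm, h13⟩
  · exact ⟨fun i hi => (h21 i hi).symm, h23⟩

/-- the tree of the possible values is full -/
theorem full_forced (α : I) (q : Cond I) : q ∈ FullN (Tn α q) := by
  classical
  refine ⟨meets_of_mem ⟨1, (mul_one q).symm, 0, fun _ => 0, fun _ _ _ _ i hi => ?_⟩, fun t => ?_⟩
  · simp at hi
  · rw [mem_fimp]
    intro q₁ _ hq₁
    obtain ⟨r, hr, s, hs, hrs⟩ := hq₁ q₁ le_rfl
    refine ⟨r, hr, ?_⟩
    have hrT : r ∈ Tn α q t := Tn_down hs hrs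
    rw [mem_fex]
    intro r₁ hr₁
    obtain ⟨r', rfl, k, θ, hθ⟩ := Tn_down hrT hr₁
    let x₀ : Pt I := fun _ _ => 0
    obtain ⟨m, hm⟩ := exists_split q α (r'.f x₀) k θ
    let θ' : Fin 3 → ℕ → Fin 3 := fun j i => if i < k then θ i else if i = k then j else 0
    let y₀ : ℕ → Fin 3 := q.f (upd α (r'.f x₀) fun i => if i < k then θ i else 0) α
    have hm1 : ∀ j, ∀ i < m, q.f (upd α (r'.f x₀) (θ' j)) α i = y₀ i := fun j => (hm j).1
    have hm2 : ∀ j, q.f (upd α (r'.f x₀) (θ' j)) α m = j := fun j => (hm j).2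
    have hext : ∀ j, Ext (q.f (upd α (r'.f x₀) (θ' j)) α) t := by
      intro j
      apply hθ x₀
      · intro γ hγ
        exact upd_ne hγ.ne
      · intro i hi
        rw [upd_self]
        exact if_pos hi
    have hlen : t.length ≤ m := by
      by_contra hcon
      push Not at hcon
      have h0 := hext 0 m hcon
      have h1 := hext 1 m hcon
      rw [hm2, ← h1, hm2] at h0
      exact absurd h0 (by decide)
    have hy₀ : Ext y₀ t := by
      intro i hi
      rw [← hm1 0 i (hi.trans_le hlen)]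
      exact hext 0 i hi
    obtain ⟨u, -, -, hu⟩ := ext_append hy₀ hlen
    obtain ⟨E, k₁, -, hE⟩ := exists_agree_seq (fun x => q.f x α)
      ((continuous_apply α).comp q.cont) (B := Set.univ)
      (fun x y hxy => by rw [show x = y from funext fun γ => hxy γ (mem_univ _)]) (m + 1)
    obtain ⟨E', k', -, hE'⟩ := r'.exists_modulus E k₁ (B := Set.univ) (subset_univ _)
      (fun _ _ _ _ => mem_univ _)
    refine ⟨q * r' * sh E' k' x₀, mul_le _ _, u, fun j => meets_of_mem ?_⟩
    refine ⟨r' * sh E' k' x₀, mul_assoc _ _ _, max k₁ (k + 1), θ' j, fun x y h1 h2 => ?_⟩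
    have hval : ∀ i < m + 1, q.f y α i = q.f (upd α (r'.f x₀) (θ' j)) α i := by
      -- the coordinates above `α` do not matter
      let y' : Pt I := fun γ => if γ ≤ α then y γ else r'.f x₀ γ
      have hy' : q.f y α = q.f y' α := q.low α y y' fun β hβ => (if_pos hβ).symm
      rw [hy']
      apply hE
      intro γ hγ i hi
      rcases lt_trichotomy γ α with h | h | h
      · have h3 : y' γ = y γ := if_pos h.le
        rw [h3, upd_ne h.ne, h1 γ h]
        exact hE' _ _ agree_shf γ hγ i hi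
      · subst h
        have h3 : y' γ = y γ := if_pos le_rfl
        rw [h3, upd_self]
        exact h2 i (hi.trans_le (le_max_left _ _))
      · have h3 : y' γ = r'.f x₀ γ := if_neg (not_le.2 h)
        rw [h3, upd_ne h.ne']
    apply hu
    · intro i hi
      rw [hval i (hi.trans (Nat.lt_succ_self m)), hm1 j i hi]
    · rw [hval m (Nat.lt_succ_self m), hm2]

/-- the name of the generic sequence at `α` -/
def Gn (α : I) (n : ℕ) (v : Fin 3) : Set (Cond I) := {q | ∀ x, q.f x α n = v}

theorem Gn_down {α : I} {n : ℕ} {v : Fin 3} {r s : Cond I} (h : r ∈ Gn α n v) (hs : s ≤ r) :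
    s ∈ Gn α n v := by
  obtain ⟨u, rfl⟩ := hs
  exact fun x => h (u.f x)

theorem seq_forced (α : I) (q : Cond I) : q ∈ IsSeqN (Gn α) := by
  constructor
  · intro n
    rw [mem_fex]
    intro r _
    let x₀ : Pt I := fun _ _ => 0
    obtain ⟨E, k, -, hE⟩ := exists_agree_seq (fun x => r.f x α)
      ((continuous_apply α).comp r.cont) (B := Set.univ)
      (fun x y hxy => by rw [show x = y from funext fun γ => hxy γ (mem_univ _)]) (n + 1)
    refine ⟨r * sh E k x₀, mul_le _ _, r.f x₀ α n, meets_of_mem fun x => ?_⟩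
    exact hE _ _ agree_shf n (Nat.lt_succ_self n)
  · intro n i j
    rw [mem_fimp]
    intro r _ hr
    obtain ⟨r₁, hr₁, s₁, hs₁, hrs₁⟩ := hr.1 r le_rfl
    obtain ⟨r₂, hr₂, s₂, hs₂, hrs₂⟩ := hr.2 r₁ hr₁
    refine ⟨r, le_rfl, ?_⟩
    have h1 := Gn_down hs₁ (hr₂.trans hrs₁) (fun _ _ => 0)
    have h2 := Gn_down hs₂ hrs₂ (fun _ _ => 0)
    exact h1.symm.trans h2

/-- **The avoidance property is forced.** -/
theorem avoid_forced {W : Type} (hW : #W ≤ 𝔠) (p : Cond (Sc 𝔠)) :
    p ∈ AvoidN (Cond (Sc 𝔠)) W := by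
  classical
  intro A
  rw [mem_fimp]
  intro q _ hyp
  refine ⟨q, le_rfl, ?_⟩
  have hY : #(W × List (Fin 3)) ≤ 𝔠 := by
    rw [Cardinal.mk_prod, Cardinal.lift_id, Cardinal.lift_id]
    refine (mul_le_mul' hW ?_).trans Cardinal.continuum_mul_self.le
    exact (Cardinal.mk_le_aleph0 (α := List (Fin 3))).trans Cardinal.aleph0_le_continuum
  obtain ⟨α, hα⟩ := exists_closed hY fun y b =>
    if h : ∃ r, b * r ∈ meets (A y.1 y.2) then h.choose else 1
  have hα' : ∀ w t, ∀ b : Cond (Sc 𝔠), b.supp ⊆ Iio α → (∃ r, b * r ∈ meets (A w t)) →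
      ∃ c : Cond (Sc 𝔠), c.supp ⊆ Iio α ∧ b * c ∈ meets (A w t) := by
    intro w t b hb h
    refine ⟨_, hα (w, t) b hb, ?_⟩
    simp only
    rw [dif_pos h]
    exact h.choose_spec
  rw [mem_fex]
  intro q₁ hq₁
  refine ⟨q₁, le_rfl, Gn α, seq_forced α q₁, fun w => ?_⟩
  rw [mem_fex]
  intro q₂ hq₂
  obtain ⟨r, hr, hr'⟩ := mem_fimp.1 (hyp w (Tn α q₂)) q₂ (hq₂.trans hq₁) (full_forced α q₂)
  obtain ⟨r₁, hr₁, t, hr₁', hr₁''⟩ := mem_fex.1 hr' r le_rfl
  obtain ⟨r₂, hr₂, s, hs, hrs⟩ := hr₁' r₁ le_rfl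
  have hr₂' := fnot_down hr₁'' hr₂
  obtain ⟨r', rfl, k, θ, hθ⟩ := Tn_down hs hrs
  refine ⟨q₂ * res (Iio α) r' * sh {α} k (fun _ => θ), ⟨res (Iio α) r' * sh {α} k (fun _ => θ),
    mul_assoc _ _ _⟩, t, ?_, ?_⟩
  · intro n hn
    refine meets_of_mem fun x => ?_
    refine hθ (shf {α} k (fun _ => θ) x) _ ?_ ?_ n hn
    · intro γ hγ
      exact res_f_mem hγ
    · intro i hi
      rw [res_f_not (fun h => lt_irrefl α h : α ∉ Iio α)]
      rw [sh_f, shf_lt (Finset.mem_singleton_self α) hi]
  · have h1 := res_fnot (hα' w t) hr₂'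
    obtain ⟨u, hu⟩ := exists_move α q₂ (res (Iio α) r') ((supp_res _ _).trans inter_subset_left)
    refine fnot_down h1 ?_
    rw [res_mul (mem_Iio_low α), hu]
    exact ⟨u * sh {α} k (fun _ => θ), mul_assoc _ _ _⟩

end Pool.Agent.Helper79K.TS
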