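import Mathlib

/-!
# Iterated ternary perfect embeddings

Points are families of ternary sequences, indexed by a linear order `I`. A condition is a
continuous map `p` of the space of the points into itself with countable support, for which
`p x γ` depends only on the coordinates `x β`, `β ≤ γ`, and such that for fixed coordinates below
`γ` the map `x γ ↦ p x γ` is the embedding onto the set of branches of a perfect tree in which every
splitting node has three successors. The conditions form a monoid, ordered by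
`p ≤ q ↔ ∃ r, p = q * r`. This is a version of the iteration of the forcing with perfect trees of
this kind, with countable supports.
-/

set_option autoImplicit false

namespace Pool.Agent.Helper79K.TS

/-- Points: families of ternary sequences. -/
abbrev Pt (I : Type) : Type := I → ℕ → Fin 3

/-- Conditions: iterated ternary perfect embeddings with countable support. -/
structure Cond (I : Type) [LinearOrder I] : Type where
  /-- the map -/
  f : Pt I → Pt I
  cont : Continuous f
  low : ∀ γ x y, (∀ β ≤ γ, x β = y β) → f x γ = f y γ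
  split : ∀ γ x y n, (∀ β < γ, x β = y β) → (∀ i < n, x γ i = y γ i) → x γ n ≠ y γ n →
    ∃ m, (∀ i < m, f x γ i = f y γ i) ∧ f x γ m = x γ n ∧ f y γ m = y γ n
  ctb : {γ | ∃ x, f x γ ≠ x γ}.Countable

variable {I : Type} [LinearOrder I]

namespace Cond

/-- the support -/
def supp (p : Cond I) : Set I := {γ | ∃ x, p.f x γ ≠ x γ}

theorem not_mem_supp {p : Cond I} {γ : I} : γ ∉ p.supp ↔ ∀ x, p.f x γ = x γ := by
  simp [supp]

theorem countable_supp (p : Cond I) : p.supp.Countable := p.ctb

@[ext] theorem ext {p q : Cond I} (h : ∀ x, p.f x = q.f x) : p = q := by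
  cases p; cases q
  congr
  exact funext h

theorem low_le {p : Cond I} {γ : I} {x y : Pt I} (h : ∀ β ≤ γ, x β = y β) :
    ∀ β ≤ γ, p.f x β = p.f y β :=
  fun β hβ => p.low β x y fun δ hδ => h δ (hδ.trans hβ)

theorem low_lt {p : Cond I} {γ : I} {x y : Pt I} (h : ∀ β < γ, x β = y β) :
    ∀ β < γ, p.f x β = p.f y β :=
  fun β hβ => p.low β x y fun δ hδ => h δ (hδ.trans_lt hβ)

instance : One (Cond I) := ⟨{
  f := id
  cont := continuous_id
  low := fun γ x y h => h γ le_rfl
  split := fun γ x y n _ h1 _ => ⟨n, h1, rfl, rfl⟩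
  ctb := by simp }⟩

@[simp] theorem one_f (x : Pt I) : (1 : Cond I).f x = x := rfl

instance : Mul (Cond I) := ⟨fun p q => {
  f := fun x => p.f (q.f x)
  cont := p.cont.comp q.cont
  low := fun γ x y h => p.low γ _ _ (q.low_le h)
  split := by
    intro γ x y n h h1 h2
    obtain ⟨m, h3, h4, h5⟩ := q.split γ x y n h h1 h2
    obtain ⟨k, h6, h7, h8⟩ := p.split γ (q.f x) (q.f y) m (q.low_lt h) h3
      (by rw [h4, h5]; exact h2)
    exact ⟨k, h6, h7.trans h4, h8.trans h5⟩
  ctb := by
    apply (p.ctb.union q.ctb).mono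
    rintro γ ⟨x, hx⟩
    by_contra hcon
    rw [Set.mem_union, not_or] at hcon
    obtain ⟨h1, h2⟩ := hcon
    simp only [Set.mem_ofPred_eq, not_exists, not_not] at h1 h2
    exact hx ((h1 _).trans (h2 _)) }⟩

@[simp] theorem mul_f (p q : Cond I) (x : Pt I) : (p * q).f x = p.f (q.f x) := rfl

instance : Monoid (Cond I) where
  mul_assoc _ _ _ := rfl
  one_mul _ := rfl
  mul_one _ := rfl

theorem supp_mul (p q : Cond I) : (p * q).supp ⊆ p.supp ∪ q.supp := by
  rintro γ ⟨x, hx⟩
  by_contra hcon
  rw [Set.mem_union, not_or] at hcon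
  obtain ⟨h1, h2⟩ := hcon
  rw [not_mem_supp] at h1 h2
  exact hx ((h1 _).trans (h2 _))

theorem supp_one : (1 : Cond I).supp = ∅ := by
  ext γ
  simp [supp]

instance : Preorder (Cond I) where
  le p q := ∃ r, p = q * r
  le_refl p := ⟨1, rfl⟩
  le_trans p q r := by
    rintro ⟨a, rfl⟩ ⟨b, rfl⟩
    exact ⟨b * a, rfl⟩

theorem le_def {p q : Cond I} : p ≤ q ↔ ∃ r, p = q * r := Iff.rfl

theorem mul_le (p r : Cond I) : p * r ≤ p := ⟨r, rfl⟩

theorem mul_le_mul_left' (p : Cond I) {q r : Cond I} (h : q ≤ r) : p * q ≤ p * r := by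
  obtain ⟨s, rfl⟩ := h
  exact ⟨s, rfl⟩

section inj

variable [WellFoundedLT I]

theorem injective (p : Cond I) {x y : Pt I} (h : p.f x = p.f y) : x = y := by
  funext γ
  induction γ using WellFoundedLT.induction with
  | ind γ ih =>
    by_contra hne
    have hex : ∃ n, x γ n ≠ y γ n := by
      by_contra hcon
      push Not at hcon
      exact hne (funext hcon)
    classical
    have hmin := Nat.find_spec hex
    obtain ⟨m, -, h4, h5⟩ := p.split γ x y _ ih
      (fun i hi => not_not.1 (Nat.find_min hex hi)) hmin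
    apply hmin
    rw [← h4, ← h5, h]

theorem cancel {p r s : Cond I} (h : p * r = p * s) : r = s := by
  ext1 x
  apply p.injective
  rw [← mul_f, ← mul_f, h]

end inj

/-! ### Restrictions -/

open Classical in
/-- the condition which acts as `p` on the coordinates in `B`, and trivially on the others -/
noncomputable def res (B : Set I) (p : Cond I) : Cond I where
  f x γ := if γ ∈ B then p.f x γ else x γ
  cont := by
    refine continuous_pi fun γ => ?_
    by_cases h : γ ∈ B
    · simp only [h, if_true]
      exact (continuous_apply γ).comp p.cont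
    · simp only [h, if_false]
      exact continuous_apply γ
  low γ x y h := by
    by_cases hB : γ ∈ B
    · simp only [hB, if_true]
      exact p.low γ x y h
    · simp only [hB, if_false]
      exact h γ le_rfl
  split γ x y n h h1 h2 := by
    by_cases hB : γ ∈ B
    · simp only [hB, if_true]
      exact p.split γ x y n h h1 h2
    · simp only [hB, if_false]
      exact ⟨n, h1, rfl, rfl⟩
  ctb := by
    apply p.ctb.mono
    rintro γ ⟨x, hx⟩
    by_cases hB : γ ∈ B
    · simp only [hB, if_true] at hx
      exact ⟨x, hx⟩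
    · simp only [hB, if_false] at hx
      exact absurd rfl hx

theorem res_f_mem {B : Set I} {p : Cond I} {x : Pt I} {γ : I} (h : γ ∈ B) :
    (res B p).f x γ = p.f x γ := if_pos h

theorem res_f_not {B : Set I} {p : Cond I} {x : Pt I} {γ : I} (h : γ ∉ B) :
    (res B p).f x γ = x γ := if_neg h

theorem supp_res (B : Set I) (p : Cond I) : (res B p).supp ⊆ B ∩ p.supp := by
  rintro γ ⟨x, hx⟩
  by_cases hB : γ ∈ B
  · rw [res_f_mem hB] at hx
    exact ⟨hB, x, hx⟩
  · rw [res_f_not hB] at hx
    exact absurd rfl hx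

theorem res_of_supp {B : Set I} {p : Cond I} (h : p.supp ⊆ B) : res B p = p := by
  ext1 x
  funext γ
  by_cases hB : γ ∈ B
  · exact res_f_mem hB
  · rw [res_f_not hB]
    exact (not_mem_supp.1 (fun h' => hB (h h')) x).symm

/-- a condition is the product of its restrictions to a lower set and its complement -/
theorem res_mul_res {B : Set I} (hB : ∀ γ ∈ B, ∀ β ≤ γ, β ∈ B) (p : Cond I) :
    res B p * res Bᶜ p = p := by
  ext1 x
  funext γ
  rw [mul_f]
  by_cases h : γ ∈ B
  · rw [res_f_mem h]
    refine p.low γ _ _ fun β hβ => ?_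
    exact res_f_not (by simpa using hB γ h β hβ)
  · rw [res_f_not h, res_f_mem (by simpa using h)]

theorem res_mul {B : Set I} (hB : ∀ γ ∈ B, ∀ β ≤ γ, β ∈ B) (p q : Cond I) :
    res B (p * q) = res B p * res B q := by
  ext1 x
  funext γ
  rw [mul_f]
  by_cases h : γ ∈ B
  · rw [res_f_mem h, res_f_mem h, mul_f]
    refine p.low γ _ _ fun β hβ => ?_
    rw [res_f_mem (hB γ h β hβ)]
  · rw [res_f_not h, res_f_not h, res_f_not h]

theorem le_res {B : Set I} (hB : ∀ γ ∈ B, ∀ β ≤ γ, β ∈ B) (p : Cond I) : p ≤ res B p :=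
  ⟨res Bᶜ p, (res_mul_res hB p).symm⟩

/-- a condition which is trivial on a lower set `B` can be moved past a condition with support in
`B` -/
theorem exists_comm {B : Set I} (t d : Cond I) (ht : ∀ x, ∀ γ ∈ B, t.f x γ = x γ)
    (hd : d.supp ⊆ B) (hB : ∀ γ ∈ B, ∀ β ≤ γ, β ∈ B) : ∃ u : Cond I, t * d = d * u := by
  refine ⟨res Bᶜ (t * d), ?_⟩
  ext1 x
  funext γ
  rw [mul_f, mul_f]
  by_cases h : γ ∈ B
  · rw [ht _ γ h]
    refine (d.low γ _ _ fun β hβ => ?_).symm
    exact res_f_not (by simpa using hB γ h β hβ)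
  · rw [not_mem_supp.1 (fun h' => h (hd h')) (x := (res Bᶜ (t * d)).f x),
      res_f_mem (by simpa using h), mul_f]

end Cond

end Pool.Agent.Helper79K.TS
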