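import Pool.Agent.Helper79K.TS.Shift

/-!
Continuous functions on the space of points depend on finitely many values.
-/

set_option autoImplicit false

namespace Pool.Agent.Helper79K.TS

open Set Filter Topology

variable {I : Type}

theorem exists_nhds_seq {X : Type} [TopologicalSpace X] [DiscreteTopology X] (z : ℕ → X)
    (U : Set (ℕ → X)) (hU : U ∈ 𝓝 z) : ∃ k, ∀ y : ℕ → X, (∀ i < k, y i = z i) → y ∈ U := by
  rw [nhds_pi, Filter.mem_pi] at hU
  obtain ⟨S, hS, t, ht, h⟩ := hU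
  obtain ⟨k, hk⟩ := hS.bddAbove
  refine ⟨k + 1, fun y hy => h fun i hi => ?_⟩
  rw [hy i (Nat.lt_succ_of_le (hk hi))]
  exact mem_of_mem_nhds (ht i)

theorem exists_agree_of_nhds (x₀ : Pt I) (U : Set (Pt I)) (hU : U ∈ 𝓝 x₀) :
    ∃ (E : Finset I) (k : ℕ), ∀ x, Agree E k x x₀ → x ∈ U := by
  classical
  rw [nhds_pi, Filter.mem_pi] at hU
  obtain ⟨S, hS, t, ht, h⟩ := hU
  choose k hk using fun γ => exists_nhds_seq (x₀ γ) (t γ) (ht γ)
  refine ⟨hS.toFinset, hS.toFinset.sup k, fun x hx => h fun γ hγ => ?_⟩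
  apply hk
  intro i hi
  have hγ' : γ ∈ hS.toFinset := hS.mem_toFinset.2 hγ
  exact hx γ hγ' i (hi.trans_le (Finset.le_sup (f := k) hγ'))

theorem exists_agree_uniform {X : Type} [TopologicalSpace X] [DiscreteTopology X]
    (f : Pt I → X) (hf : Continuous f) :
    ∃ (E : Finset I) (k : ℕ), ∀ x y, Agree E k x y → f x = f y := by
  classical
  have h1 : ∀ x₀ : Pt I, ∃ (E : Finset I) (k : ℕ), ∀ x, Agree E k x x₀ → f x = f x₀ := by
    intro x₀
    have h2 : f ⁻¹' {f x₀} ∈ 𝓝 x₀ :=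
      ((isOpen_discrete {f x₀}).preimage hf).mem_nhds rfl
    obtain ⟨E, k, h⟩ := exists_agree_of_nhds x₀ _ h2
    exact ⟨E, k, h⟩
  choose E k h using h1
  have h2 : ∀ x₀ ∈ (Set.univ : Set (Pt I)), {x | Agree (E x₀) (k x₀) x x₀} ∈ 𝓝 x₀ := by
    intro x₀ _
    have h3 : {x | Agree (E x₀) (k x₀) x x₀} =
        ⋂ γ ∈ E x₀, ⋂ i ∈ Finset.range (k x₀), {x : Pt I | x γ i = x₀ γ i} := by
      ext x
      simp [Agree]
    rw [h3]
    rw [biInter_finset_mem]
    intro γ _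
    rw [biInter_finset_mem]
    intro i _
    have h4 : Continuous fun x : Pt I => x γ i := (continuous_apply i).comp (continuous_apply γ)
    exact ((isOpen_discrete {x₀ γ i}).preimage h4).mem_nhds rfl
  obtain ⟨t, -, ht⟩ := isCompact_univ.elim_nhds_subcover _ h2
  refine ⟨t.biUnion E, t.sup k, fun x y hxy => ?_⟩
  obtain ⟨x₀, hx₀, hx⟩ := mem_iUnion₂.1 (ht (mem_univ x))
  have hx' : Agree (E x₀) (k x₀) x x₀ := hx
  have h5 : Agree (E x₀) (k x₀) x y :=
    hxy.mono (Finset.subset_biUnion_of_mem E hx₀) (Finset.le_sup (f := k) hx₀)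
  rw [h x₀ x hx', h x₀ y (h5.symm.trans hx')]

/-- if a function depends only on the coordinates in `B` then so does its modulus -/
theorem exists_agree_sub {X : Type} {f : Pt I → X} {B : Set I}
    (hB : ∀ x y, (∀ γ ∈ B, x γ = y γ) → f x = f y)
    (h : ∃ (E : Finset I) (k : ℕ), ∀ x y, Agree E k x y → f x = f y) :
    ∃ (E : Finset I) (k : ℕ), ↑E ⊆ B ∧ ∀ x y, Agree E k x y → f x = f y := by
  classical
  obtain ⟨E, k, h⟩ := h
  refine ⟨E.filter (· ∈ B), k, ?_, fun x y hxy => ?_⟩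
  · intro γ hγ
    exact (Finset.mem_filter.1 hγ).2
  · let z : Pt I := fun γ => if γ ∈ B then x γ else y γ
    have h1 : f x = f z := hB x z fun γ hγ => by simp [z, hγ]
    rw [h1]
    apply h
    intro γ hγ i hi
    by_cases hγB : γ ∈ B
    · simp only [z, hγB, if_true]
      exact hxy γ (Finset.mem_filter.2 ⟨hγ, hγB⟩) i hi
    · simp only [z, hγB, if_false]

theorem exists_agree_seq {X : Type} [TopologicalSpace X] [DiscreteTopology X]
    (f : Pt I → ℕ → X) (hf : Continuous f) {B : Set I}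
    (hB : ∀ x y, (∀ γ ∈ B, x γ = y γ) → f x = f y) (n : ℕ) :
    ∃ (E : Finset I) (k : ℕ), ↑E ⊆ B ∧ ∀ x y, Agree E k x y → ∀ i < n, f x i = f y i := by
  classical
  have h : ∀ i, ∃ (E : Finset I) (k : ℕ), ↑E ⊆ B ∧ ∀ x y, Agree E k x y → f x i = f y i :=
    fun i => exists_agree_sub (fun x y hxy => by rw [hB x y hxy])
      (exists_agree_uniform (fun x => f x i) ((continuous_apply i).comp hf))
  choose E k hE h using h
  refine ⟨(Finset.range n).biUnion E, (Finset.range n).sup k, ?_, fun x y hxy i hi => ?_⟩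
  · intro γ hγ
    obtain ⟨i, _, hi⟩ := Finset.mem_biUnion.1 (Finset.mem_coe.1 hγ)
    exact hE i hi
  · exact h i x y (hxy.mono (Finset.subset_biUnion_of_mem E (Finset.mem_range.2 hi))
      (Finset.le_sup (f := k) (Finset.mem_range.2 hi)))

variable [LinearOrder I]

/-- uniform continuity of conditions -/
theorem Cond.exists_modulus (p : Cond I) (E : Finset I) (n : ℕ) {B : Set I} (hE : ↑E ⊆ B)
    (hB : ∀ γ ∈ B, ∀ β ≤ γ, β ∈ B) :
    ∃ (E' : Finset I) (k' : ℕ), ↑E' ⊆ B ∧ ∀ x y, Agree E' k' x y → Agree E n (p.f x) (p.f y) := by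
  classical
  have h : ∀ γ : I, ∃ (E' : Finset I) (k' : ℕ), ↑E' ⊆ {β | β ≤ γ} ∧
      ∀ x y, Agree E' k' x y → ∀ i < n, p.f x γ i = p.f y γ i := fun γ =>
    exists_agree_seq (fun x => p.f x γ) ((continuous_apply γ).comp p.cont)
      (fun x y hxy => p.low γ x y hxy) n
  choose E' k' hE' h using h
  refine ⟨E.biUnion E', E.sup k', ?_, fun x y hxy γ hγ i hi => ?_⟩
  · intro β hβ
    obtain ⟨γ, hγ, hβ'⟩ := Finset.mem_biUnion.1 (Finset.mem_coe.1 hβ)
    exact hB γ (hE hγ) β (hE' γ hβ')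
  · exact h γ x y (hxy.mono (Finset.subset_biUnion_of_mem E' hγ)
      (Finset.le_sup (f := k') hγ)) i hi

end Pool.Agent.Helper79K.TS
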