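import Pool.Agent.Helper79K.TS.Cont

/-!
Counting conditions; closure points.
-/

set_option autoImplicit false

namespace Pool.Agent.Helper79K.TS

open Set Cardinal

/-- the well-ordered set whose order type is the cardinal successor of `κ` -/
abbrev Sc (κ : Cardinal.{0}) : Type := (Order.succ κ).ord.ToType

theorem mk_Sc (κ : Cardinal.{0}) : #(Sc κ) = Order.succ κ := by
  simp

theorem mk_Iio_le {κ : Cardinal.{0}} (b : Sc κ) : #(Iio b) ≤ κ := by
  have h := Cardinal.mk_Iio_toType_ord_lt b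
  exact Order.lt_succ_iff.1 h

theorem mk_Iic_le {κ : Cardinal.{0}} (hκ : ℵ₀ ≤ κ) (b : Sc κ) : #(Iic b) ≤ κ := by
  have h1 : Iic b = Iio b ∪ {b} := by
    ext x
    simp [le_iff_lt_or_eq]
  rw [h1]
  refine (Cardinal.mk_union_le _ _).trans ?_
  refine (add_le_add (mk_Iio_le b) (le_of_eq (Cardinal.mk_singleton b))).trans ?_
  exact Cardinal.add_le_of_le hκ le_rfl (one_le_aleph0.trans hκ)

theorem exists_bound {κ : Cardinal.{0}} (hκ : ℵ₀ ≤ κ) (S : Set (Sc κ)) (hS : #S ≤ κ) :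
    ∃ b, ∀ s ∈ S, s < b := by
  by_contra hcon
  push Not at hcon
  have h1 : (Set.univ : Set (Sc κ)) ⊆ ⋃ s : S, Iic (s : Sc κ) := by
    intro b _
    obtain ⟨s, hs, hbs⟩ := hcon b
    exact mem_iUnion.2 ⟨⟨s, hs⟩, hbs⟩
  have h2 : #(Sc κ) ≤ κ := by
    rw [← Cardinal.mk_univ]
    refine (Cardinal.mk_le_mk_of_subset h1).trans ?_
    refine (Cardinal.mk_iUnion_le _).trans ?_
    refine (mul_le_mul' hS (ciSup_le' fun s => mk_Iic_le hκ _)).trans ?_
    exact (Cardinal.mul_eq_self hκ).le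
  rw [mk_Sc] at h2
  exact absurd (Order.lt_succ κ) (not_lt.2 h2)

variable {I : Type}

theorem mk_finset_le (J : Set I) (hJ : #J ≤ 𝔠) : #(Finset J) ≤ 𝔠 := by
  classical
  have h1 : #(Finset J) ≤ #(List J) :=
    Cardinal.mk_le_of_surjective (f := List.toFinset) (fun s => ⟨s.toList, Finset.toList_toFinset s⟩)
  refine h1.trans ((Cardinal.mk_list_le_max J).trans ?_)
  exact max_le Cardinal.aleph0_le_continuum hJ

/-- the functions with a finite modulus in `J` -/
def Fm (J : Set I) : Set (Pt I → Fin 3) :=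
  {h | ∃ (E : Finset I) (k : ℕ), ↑E ⊆ J ∧ ∀ x y, Agree E k x y → h x = h y}

theorem mk_Fm (J : Set I) (hJ : #J ≤ 𝔠) : #(Fm J) ≤ 𝔠 := by
  classical
  have h1 : Fm J ⊆ ⋃ p : Finset J × ℕ,
      {h | ∀ x y, Agree (p.1.map (Function.Embedding.subtype _)) p.2 x y → h x = h y} := by
    rintro h ⟨E, k, hE, hh⟩
    refine mem_iUnion.2 ⟨(E.subtype (· ∈ J), k), fun x y hxy => ?_⟩
    apply hh
    intro γ hγ i hi
    refine hxy γ ?_ i hi
    simp only [Finset.mem_map, Finset.mem_subtype, Function.Embedding.subtype_apply]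
    exact ⟨⟨γ, hE hγ⟩, hγ, rfl⟩
  have h2 : ∀ p : Finset J × ℕ, #{h : Pt I → Fin 3 |
      ∀ x y, Agree (p.1.map (Function.Embedding.subtype _)) p.2 x y → h x = h y} ≤ 𝔠 := by
    rintro ⟨E, k⟩
    obtain ⟨L, hL⟩ := exists_reps (E.map (Function.Embedding.subtype _)) k
    have h3 : #{h : Pt I → Fin 3 |
        ∀ x y, Agree (E.map (Function.Embedding.subtype _)) k x y → h x = h y} ≤ #(L → Fin 3) := by
      refine Cardinal.mk_le_of_injective (f := fun h (x : L) => h.1 x.1) ?_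
      rintro ⟨g, hg⟩ ⟨h, hh⟩ heq
      apply Subtype.ext
      funext x
      obtain ⟨τ, hτ, hx⟩ := hL x
      have h4 := congrFun heq ⟨τ, hτ⟩
      change g τ = h τ at h4
      change g x = h x
      rw [hg x τ hx, hh x τ hx, h4]
    refine h3.trans ?_
    exact (Cardinal.lt_aleph0_of_finite _).le.trans Cardinal.aleph0_le_continuum
  refine (Cardinal.mk_le_mk_of_subset h1).trans ?_
  refine (Cardinal.mk_iUnion_le _).trans ?_
  refine (mul_le_mul' ?_ (ciSup_le' h2)).trans Cardinal.continuum_mul_self.le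
  rw [Cardinal.mk_prod, Cardinal.lift_id, Cardinal.lift_id]
  refine (mul_le_mul' (mk_finset_le J hJ) ?_).trans Cardinal.continuum_mul_self.le
  rw [Cardinal.mk_nat]
  exact Cardinal.aleph0_le_continuum

variable [LinearOrder I]

open Cond

/-- there are at most continuum many conditions with support in `J` -/
theorem mk_cond (J : Set I) (hJ : #J ≤ 𝔠) (hlow : ∀ γ ∈ J, ∀ β ≤ γ, β ∈ J) :
    #{p : Cond I | p.supp ⊆ J} ≤ 𝔠 := by
  classical
  rcases J.eq_empty_or_nonempty with rfl | ⟨γ₀, hγ₀⟩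
  · have h1 : {p : Cond I | p.supp ⊆ ∅} ⊆ {1} := by
      intro p hp
      have hp' : p.supp ⊆ ∅ := hp
      rw [mem_singleton_iff]
      ext1 x
      funext γ
      exact not_mem_supp.1 (fun h => hp' h) x
    refine (Cardinal.mk_le_mk_of_subset h1).trans ?_
    rw [Cardinal.mk_singleton]
    exact one_le_aleph0.trans Cardinal.aleph0_le_continuum
  · -- enumeration of the support
    have h1 : ∀ p : {p : Cond I | p.supp ⊆ J}, ∃ e : ℕ → J, ∀ γ ∈ p.1.supp, ∃ n, (e n : I) = γ := by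
      intro p
      obtain ⟨e, he⟩ := ((p.1.countable_supp).insert γ₀).exists_eq_range (insert_nonempty _ _)
      have h2 : ∀ n, e n ∈ J := by
        intro n
        have h3 : e n ∈ insert γ₀ p.1.supp := by
          rw [he]
          exact mem_range_self n
        rcases h3 with h3 | h3
        · rw [h3]
          exact hγ₀
        · exact p.2 h3
      refine ⟨fun n => ⟨e n, h2 n⟩, fun γ hγ => ?_⟩
      have h3 : γ ∈ insert γ₀ p.1.supp := Or.inr hγ
      rw [he] at h3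
      exact h3
    choose e he using h1
    have h2 : ∀ (p : Cond I) (γ : J) (i : ℕ), (fun x => p.f x γ i) ∈ Fm J := by
      intro p γ i
      obtain ⟨E, k, hE, h⟩ := exists_agree_seq (fun x => p.f x (γ : I))
        ((continuous_apply (γ : I)).comp p.cont) (B := J)
        (fun x y hxy => p.low γ x y fun β hβ => hxy β (hlow γ γ.2 β hβ)) (i + 1)
      exact ⟨E, k, hE, fun x y hxy => h x y hxy i (Nat.lt_succ_self i)⟩
    let code : {p : Cond I | p.supp ⊆ J} → ℕ → J × (ℕ → Fm J) :=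
      fun p n => (e p n, fun i => ⟨fun x => p.1.f x (e p n) i, h2 p.1 (e p n) i⟩)
    have hinj : Function.Injective code := by
      intro p q hpq
      apply Subtype.ext
      ext1 x
      funext γ
      have he1 : e p = e q := by
        funext n
        exact (congrArg Prod.fst (congrFun hpq n) : e p n = e q n)
      by_cases hγ : ∃ n, (e p n : I) = γ
      · obtain ⟨n, rfl⟩ := hγ
        funext i
        have h3 := congrFun (congrArg Prod.snd (congrFun hpq n)) i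
        have h4 := congrFun (congrArg Subtype.val h3) x
        change p.1.f x (e p n) i = q.1.f x (e q n) i at h4
        rw [h4, he1]
      · have h3 : γ ∉ p.1.supp := fun h => hγ (he p γ h)
        have h4 : γ ∉ q.1.supp := fun h => by
          obtain ⟨n, hn⟩ := he q γ h
          exact hγ ⟨n, by rw [he1]; exact hn⟩
        rw [not_mem_supp.1 h3, not_mem_supp.1 h4]
    refine (Cardinal.mk_le_of_injective hinj).trans ?_
    have h3 : #(ℕ → Fm J) ≤ 𝔠 := by
      rw [← Cardinal.power_def, Cardinal.mk_nat]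
      refine (Cardinal.power_le_power_right (mk_Fm J hJ)).trans ?_
      exact Cardinal.continuum_power_aleph0.le
    rw [← Cardinal.power_def, Cardinal.mk_nat, Cardinal.mk_prod, Cardinal.lift_id,
      Cardinal.lift_id]
    refine (Cardinal.power_le_power_right ((mul_le_mul' hJ h3).trans
      Cardinal.continuum_mul_self.le)).trans ?_
    exact Cardinal.continuum_power_aleph0.le

/-- closure points -/
theorem exists_closed {Y : Type} (hY : #Y ≤ 𝔠) (r : Y → Cond (Sc 𝔠) → Cond (Sc 𝔠)) :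
    ∃ α : Sc 𝔠, ∀ (y : Y) (b : Cond (Sc 𝔠)), b.supp ⊆ Iio α → (r y b).supp ⊆ Iio α := by
  classical
  have hc : ℵ₀ ≤ 𝔠 := Cardinal.aleph0_le_continuum
  -- the next step
  have h1 : ∀ β : Sc 𝔠, ∃ β' : Sc 𝔠, ∀ (y : Y) (b : Cond (Sc 𝔠)), b.supp ⊆ Iic β →
      (r y b).supp ⊆ Iio β' := by
    intro β
    have h2 : #(⋃ p : Y × {b : Cond (Sc 𝔠) | b.supp ⊆ Iic β}, (r p.1 p.2.1).supp) ≤ 𝔠 := by
      refine (Cardinal.mk_iUnion_le _).trans ?_
      refine (mul_le_mul' ?_ (ciSup_le' fun p => ?_)).trans Cardinal.continuum_mul_self.le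
      · rw [Cardinal.mk_prod, Cardinal.lift_id, Cardinal.lift_id]
        exact (mul_le_mul' hY (mk_cond (Iic β) (mk_Iic_le hc β)
          (fun γ hγ δ hδ => le_trans hδ hγ))).trans Cardinal.continuum_mul_self.le
      · exact (Cardinal.le_aleph0_iff_set_countable.2 (countable_supp _)).trans hc
    obtain ⟨β', hβ'⟩ := exists_bound hc _ h2
    exact ⟨β', fun y b hb γ hγ => hβ' γ (mem_iUnion.2 ⟨(y, ⟨b, hb⟩), hγ⟩)⟩
  choose g hg using h1
  have h2 : ∀ S : Set (Sc 𝔠), ∃ b, #S ≤ 𝔠 → ∀ s ∈ S, s < b := by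
    intro S
    by_cases hS : #S ≤ 𝔠
    · obtain ⟨b, hb⟩ := exists_bound hc S hS
      exact ⟨b, fun _ => hb⟩
    · obtain ⟨b, -⟩ := exists_bound hc (∅ : Set (Sc 𝔠)) (by simp)
      exact ⟨b, fun h => absurd h hS⟩
  choose ub hub using h2
  -- a sequence of length `ω₁`
  let a : Sc ℵ₀ → Sc 𝔠 := (wellFounded_lt (α := Sc ℵ₀)).fix fun ξ ih =>
    ub (⋃ η : Iio ξ, {ih η.1 η.2, g (ih η.1 η.2)})
  have ha : ∀ ξ, a ξ = ub (⋃ η : Iio ξ, {a η, g (a η)}) := by
    intro ξ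
    exact WellFounded.fix_eq _ _ ξ
  have hcard : ∀ ξ : Sc ℵ₀, #(⋃ η : Iio ξ, ({a η, g (a η)} : Set (Sc 𝔠))) ≤ 𝔠 := by
    intro ξ
    refine le_trans (Cardinal.le_aleph0_iff_set_countable.2 ?_) hc
    have h3 : Countable (Iio ξ) := by
      rw [← Cardinal.mk_le_aleph0_iff]
      exact mk_Iio_le ξ
    exact countable_iUnion fun η => (countable_singleton _).insert _
  have ha1 : ∀ ξ η, η < ξ → a η < a ξ := by
    intro ξ η h
    rw [ha ξ]
    exact hub _ (hcard ξ) _ (mem_iUnion.2 ⟨⟨η, h⟩, Or.inl rfl⟩)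
  have ha2 : ∀ ξ η, η < ξ → g (a η) < a ξ := by
    intro ξ η h
    rw [ha ξ]
    exact hub _ (hcard ξ) _ (mem_iUnion.2 ⟨⟨η, h⟩, Or.inr rfl⟩)
  have hK : #(Sc ℵ₀) ≤ 𝔠 := by
    rw [mk_Sc]
    exact Order.succ_le_of_lt Cardinal.aleph0_lt_continuum
  obtain ⟨b₀, hb₀⟩ := exists_bound hc (range a) (Cardinal.mk_range_le.trans hK)
  let S : Set (Sc 𝔠) := {γ | ∀ ξ, a ξ ≤ γ}
  have hS : S.Nonempty := ⟨b₀, fun ξ => (hb₀ _ (mem_range_self ξ)).le⟩
  obtain ⟨α, hα⟩ : ∃ α, α = (wellFounded_lt (α := Sc 𝔠)).min S hS := ⟨_, rfl⟩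
  have hα1 : ∀ ξ, a ξ ≤ α := by
    have h3 := WellFounded.min_mem (wellFounded_lt (α := Sc 𝔠)) S hS
    rw [← hα] at h3
    exact h3
  have hα2 : ∀ γ < α, ∃ ξ, γ < a ξ := by
    intro γ hγ
    by_contra hcon
    push Not at hcon
    have h3 : γ ∈ S := hcon
    rw [hα] at hγ
    exact WellFounded.not_lt_min (wellFounded_lt (α := Sc 𝔠)) S h3 hγ
  have hnext : ∀ ξ : Sc ℵ₀, ∃ ξ', ξ < ξ' := by
    intro ξ
    obtain ⟨b, hb⟩ := exists_bound le_rfl ({ξ} : Set (Sc ℵ₀)) (by simp)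
    exact ⟨b, hb ξ rfl⟩
  refine ⟨α, fun y b hb => ?_⟩
  have hne : Nonempty (Sc ℵ₀) := by
    obtain ⟨b', -⟩ := exists_bound le_rfl (∅ : Set (Sc ℵ₀)) (by simp)
    exact ⟨b'⟩
  choose! x hx using hα2
  have h3 : #(x '' b.supp) ≤ ℵ₀ :=
    Cardinal.le_aleph0_iff_set_countable.2 (b.countable_supp.image _)
  obtain ⟨ξ, hξ⟩ := exists_bound le_rfl _ h3
  obtain ⟨ξ', hξ'⟩ := hnext ξ
  have h4 : b.supp ⊆ Iic (a ξ) := by
    intro γ hγ
    exact ((hx γ (hb hγ)).trans (ha1 _ _ (hξ _ (mem_image_of_mem _ hγ)))).le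
  intro γ hγ
  exact ((hg (a ξ) y b h4 hγ).trans (ha2 _ _ hξ')).trans_le (hα1 ξ')

end Pool.Agent.Helper79K.TS
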