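import Pool.Agent.Helper79K.TS.Cont

/-!
Fusion.
-/

set_option autoImplicit false

namespace Pool.Agent.Helper79K.TS

open Set Filter Topology

variable {I : Type} [LinearOrder I] [WellFoundedLT I]

namespace Cond

theorem inj_lt (p : Cond I) {x y : Pt I} {γ : I} (h : ∀ β < γ, p.f x β = p.f y β) :
    ∀ β < γ, x β = y β := by
  intro β
  induction β using WellFoundedLT.induction with
  | ind β ih =>
    intro hβ
    by_contra hne
    have hex : ∃ n, x β n ≠ y β n := by
      by_contra hcon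
      push Not at hcon
      exact hne (funext hcon)
    classical
    have hmin := Nat.find_spec hex
    obtain ⟨m, -, h4, h5⟩ := p.split β x y _ (fun δ hδ => ih δ hδ (hδ.trans hβ))
      (fun i hi => not_not.1 (Nat.find_min hex hi)) hmin
    apply hmin
    rw [← h4, ← h5, h β hβ]

theorem inj_le (p : Cond I) {x y : Pt I} {γ : I} (h : ∀ β ≤ γ, p.f x β = p.f y β) :
    ∀ β ≤ γ, x β = y β := by
  have h1 := p.inj_lt (fun β hβ => h β (le_of_lt hβ))
  intro β hβ
  rcases hβ.lt_or_eq with hlt | rfl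
  · exact h1 β hlt
  by_contra hne
  have hex : ∃ n, x β n ≠ y β n := by
    by_contra hcon
    push Not at hcon
    exact hne (funext hcon)
  classical
  have hmin := Nat.find_spec hex
  obtain ⟨m, -, h4, h5⟩ := p.split β x y _ h1
    (fun i hi => not_not.1 (Nat.find_min hex hi)) hmin
  apply hmin
  rw [← h4, ← h5, h β le_rfl]

theorem isClosedEmbedding (p : Cond I) : IsClosedEmbedding p.f :=
  p.cont.isClosedEmbedding fun _ _ h => p.injective h

/-- division: a condition with values in the range of `p` is a multiple of `p` -/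
theorem exists_div (p : Cond I) (t : Pt I → Pt I) (ht : Continuous t)
    (hlow : ∀ γ x y, (∀ β ≤ γ, x β = y β) → t x γ = t y γ)
    (hsplit : ∀ γ x y n, (∀ β < γ, x β = y β) → (∀ i < n, x γ i = y γ i) → x γ n ≠ y γ n →
      ∃ m, (∀ i < m, t x γ i = t y γ i) ∧ t x γ m = x γ n ∧ t y γ m = y γ n)
    (hctb : {γ | ∃ x, t x γ ≠ x γ}.Countable)
    (g : Pt I → Pt I) (hg : ∀ x, p.f (g x) = t x) : ∃ s : Cond I, s.f = g := by
  have hlt : ∀ γ x y, (∀ β < γ, x β = y β) → ∀ β < γ, g x β = g y β := by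
    intro γ x y h
    apply p.inj_lt
    intro β hβ
    rw [hg, hg]
    exact hlow β x y fun δ hδ => h δ (hδ.trans_lt hβ)
  refine ⟨{
    f := g
    cont := ?_
    low := ?_
    split := ?_
    ctb := ?_ }, rfl⟩
  · rw [p.isClosedEmbedding.isInducing.continuous_iff]
    have h1 : p.f ∘ g = t := funext hg
    rw [h1]
    exact ht
  · intro γ x y h
    refine p.inj_le ?_ γ le_rfl
    intro β hβ
    rw [hg, hg]
    exact hlow β x y fun δ hδ => h δ (hδ.trans hβ)
  · intro γ x y n h h1 h2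
    obtain ⟨m, h3, h4, h5⟩ := hsplit γ x y n h h1 h2
    have hne : ∃ j, g x γ j ≠ g y γ j := by
      by_contra hcon
      push Not at hcon
      apply h2
      rw [← h4, ← h5, ← hg, ← hg]
      refine congrFun (p.low γ _ _ fun β hβ => ?_) m
      rcases hβ.lt_or_eq with hlt' | rfl
      · exact hlt γ x y h β hlt'
      · exact funext hcon
    classical
    have hmin := Nat.find_spec hne
    have hmin' : ∀ i < Nat.find hne, g x γ i = g y γ i :=
      fun i hi => not_not.1 (Nat.find_min hne hi)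
    obtain ⟨l, h6, h7, h8⟩ := p.split γ (g x) (g y) _ (hlt γ x y h) hmin' hmin
    rw [hg, hg] at h6
    rw [hg] at h7 h8
    have hl : l = m := by
      rcases lt_trichotomy l m with h9 | h9 | h9
      · exact absurd ((h7.symm.trans (h3 l h9)).trans h8) hmin
      · exact h9
      · exact absurd ((h4.symm.trans (h6 m h9)).trans h5) h2
    subst hl
    exact ⟨_, hmin', h7.symm.trans h4, h8.symm.trans h5⟩
  · apply (hctb.union p.ctb).mono
    rintro γ ⟨x, hx⟩
    by_contra hcon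
    rw [Set.mem_union, not_or] at hcon
    simp only [Set.mem_ofPred_eq, not_exists, not_not] at hcon
    apply hx
    rw [← hcon.1 x, ← hg, hcon.2]

end Cond

/-- the state of the construction -/
structure St (I : Type) [LinearOrder I] : Type where
  E : Finset I
  k : ℕ
  T : Cond I
  L : List (ℕ → Option I)

omit [LinearOrder I] [WellFoundedLT I] in
theorem exists_enum {C : Set I} (hC : C.Countable) : ∃ e : ℕ → Option I,
    (∀ γ ∈ C, ∃ i, e i = some γ) ∧ ∀ i γ, e i = some γ → γ ∈ C := by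
  rcases C.eq_empty_or_nonempty with rfl | hne
  · exact ⟨fun _ => none, by simp, by simp⟩
  · obtain ⟨f, hf⟩ := hC.exists_eq_range hne
    refine ⟨fun i => some (f i), ?_, ?_⟩
    · intro γ hγ
      rw [hf] at hγ
      obtain ⟨i, rfl⟩ := hγ
      exact ⟨i, rfl⟩
    · intro i γ h
      rw [hf]
      exact ⟨i, Option.some.inj h⟩

/-- **Fusion.** -/
theorem fusion (B : Set I) (hB : ∀ γ ∈ B, ∀ β ≤ γ, β ∈ B)
    (Good : ℕ → Finset I → ℕ → Cond I → Prop)
    (hex : ∀ n (E : Finset I) k (T : Cond I), ↑E ⊆ B → T.supp ⊆ B →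
      ∃ s : Cond I, s.supp ⊆ B ∧ Cond.Pure E k s ∧ Good n E k (T * s))
    (hst : ∀ n (E : Finset I) k (T s : Cond I), Good n E k T → Cond.Pure E k s →
      Good n E k (T * s))
    (A₀ : Set I) (hA₀ : A₀.Countable) (hA₀B : A₀ ⊆ B) :
    ∃ (t : Cond I) (E : ℕ → Finset I) (k : ℕ → ℕ), t.supp ⊆ B ∧ Monotone E ∧ StrictMono k ∧
      (∀ n, ↑(E n) ⊆ B) ∧ (∀ γ ∈ A₀, ∃ n, γ ∈ E n) ∧ (∀ γ ∈ t.supp, ∃ n, γ ∈ E n) ∧
      (∀ n, Good n (E n) (k n) t) ∧
      ∀ n x y, Agree (E (n + 1)) (k (n + 1)) x y → Agree (E n) (k n) (t.f x) (t.f y) := by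
  classical
  let Inv : St I → Prop := fun a => ↑a.E ⊆ B ∧ a.T.supp ⊆ B ∧
    ∀ e ∈ a.L, ∀ i γ, e i = some γ → γ ∈ B
  let Step : ℕ → St I → St I → Prop := fun n a b => ∃ s : Cond I, s.supp ⊆ B ∧
    Cond.Pure a.E a.k s ∧ Good n a.E a.k (a.T * s) ∧ b.T = a.T * s ∧ a.E ⊆ b.E ∧ a.k < b.k ∧
    (∀ x y, Agree b.E b.k x y → Agree a.E a.k (b.T.f x) (b.T.f y)) ∧
    (∃ e ∈ b.L, ∀ γ ∈ s.supp, ∃ i, e i = some γ) ∧ (∀ e ∈ a.L, e ∈ b.L) ∧
    ∀ e ∈ b.L, ∀ i ≤ n, ∀ γ, e i = some γ → γ ∈ b.E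
  have hstep : ∀ n a, Inv a → ∃ b, Inv b ∧ Step n a b := by
    rintro n ⟨E, k, T, L⟩ ⟨h1, h2, h3⟩
    obtain ⟨s, hs1, hs2, hs3⟩ := hex n E k T h1 h2
    obtain ⟨e, he1, he2⟩ := exists_enum s.countable_supp
    have hT : (T * s).supp ⊆ B := (Cond.supp_mul T s).trans (union_subset h2 hs1)
    obtain ⟨E', k', hE', hmod⟩ := (T * s).exists_modulus E k h1 hB
    let F : Finset I := ((e :: L).toFinset.biUnion fun e =>
      (Finset.range (n + 1)).biUnion fun i => (e i).toFinset)
    have hF : ∀ γ, γ ∈ F ↔ ∃ e' ∈ e :: L, ∃ i ≤ n, e' i = some γ := by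
      intro γ
      simp only [F, Finset.mem_biUnion, List.mem_toFinset, Finset.mem_range, Option.mem_toFinset,
        Option.mem_def, Nat.lt_succ_iff]
    have hL : ∀ e' ∈ e :: L, ∀ i γ, e' i = some γ → γ ∈ B := by
      intro e' he' i γ h
      rcases List.mem_cons.1 he' with rfl | he'
      · exact hs1 (he2 i γ h)
      · exact h3 e' he' i γ h
    refine ⟨⟨E ∪ E' ∪ F, max (k + 1) k', T * s, e :: L⟩, ⟨?_, hT, hL⟩, s, hs1, hs2, hs3, rfl,
      ?_, ?_, ?_, ⟨e, List.mem_cons_self, he1⟩, fun e' he' => List.mem_cons_of_mem _ he', ?_⟩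
    · intro γ hγ
      simp only [Finset.coe_union, Set.mem_union, Finset.mem_coe] at hγ
      rcases hγ with (hγ | hγ) | hγ
      · exact h1 hγ
      · exact hE' hγ
      · obtain ⟨e', he', i, -, hi⟩ := (hF γ).1 hγ
        exact hL e' he' i γ hi
    · intro γ hγ
      exact Finset.mem_union_left _ (Finset.mem_union_left _ hγ)
    · exact (Nat.lt_succ_self k).trans_le (le_max_left _ _)
    · intro x y hxy
      exact hmod x y (hxy.mono (fun γ hγ =>
        Finset.mem_union_left _ (Finset.mem_union_right _ hγ)) (le_max_right _ _))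
    · intro e' he' i hi γ h
      exact Finset.mem_union_right _ ((hF γ).2 ⟨e', he', i, hi, h⟩)
  obtain ⟨e₀, he₀, he₀'⟩ := exists_enum hA₀
  let init : St I := ⟨∅, 0, 1, [e₀]⟩
  have hinit : Inv init := by
    refine ⟨by simp [init], by simp [init, Cond.supp_one], ?_⟩
    intro e he i γ h
    rw [List.mem_singleton.1 he] at h
    exact hA₀B (he₀' i γ h)
  choose nxt hnxt using hstep
  let u : ℕ → {a : St I // Inv a} := fun n =>
    Nat.rec ⟨init, hinit⟩ (fun m a => ⟨nxt m a.1 a.2, (hnxt m a.1 a.2).1⟩) n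
  have hu : ∀ n, Step n (u n).1 (u (n + 1)).1 := fun n => (hnxt n (u n).1 (u n).2).2
  let E : ℕ → Finset I := fun n => (u n).1.E
  let k : ℕ → ℕ := fun n => (u n).1.k
  let T : ℕ → Cond I := fun n => (u n).1.T
  choose s hs1 hs2 hs3 hs4 hs5 hs6 hs7 hs8 hs9 hs10 using hu
  have hE : Monotone E := monotone_nat_of_le_succ hs5
  have hk : StrictMono k := strictMono_nat_of_lt_succ hs6
  have hEB : ∀ n, ↑(E n) ⊆ B := fun n => (u n).2.1
  have hTB : ∀ n, (T n).supp ⊆ B := fun n => (u n).2.2.1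
  have hTs : ∀ n, T (n + 1) = T n * s n := hs4
  -- lists grow
  have hL : ∀ n m, n ≤ m → ∀ e ∈ (u n).1.L, e ∈ (u m).1.L := by
    intro n m hnm e he
    induction m, hnm using Nat.le_induction with
    | base => exact he
    | succ m _ ih => exact hs9 m e ih
  have hcatch : ∀ n, ∀ e ∈ (u n).1.L, ∀ i γ, e i = some γ → ∃ m, γ ∈ E m := by
    intro n e he i γ h
    refine ⟨max n i + 1, hs10 (max n i) e (hL n _ ((le_max_left n i).trans (Nat.le_succ _)) e he) i
      (le_max_right _ _) γ h⟩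
  have hsE : ∀ n, ∀ γ ∈ (s n).supp, ∃ m, γ ∈ E m := by
    intro n γ hγ
    obtain ⟨e, he, he'⟩ := hs8 n
    obtain ⟨i, hi⟩ := he' γ hγ
    exact hcatch (n + 1) e he i γ hi
  have hA₀E : ∀ γ ∈ A₀, ∃ n, γ ∈ E n := by
    intro γ hγ
    obtain ⟨i, hi⟩ := he₀ γ hγ
    exact hcatch 0 e₀ (List.mem_singleton.2 rfl) i γ hi
  have hTE : ∀ n, ∀ γ ∈ (T n).supp, ∃ m, γ ∈ E m := by
    intro n
    induction n with
    | zero =>
      intro γ hγ
      have h0 : T 0 = 1 := rfl
      rw [h0, Cond.supp_one] at hγ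
      exact absurd hγ (Set.notMem_empty γ)
    | succ n ih =>
      intro γ hγ
      rw [hTs] at hγ
      rcases Cond.supp_mul _ _ hγ with h | h
      · exact ih γ h
      · exact hsE n γ h
  -- tails of the product
  have htail : ∀ n m, n ≤ m → ∃ R : Cond I, T m = T n * R ∧ Cond.Pure (E n) (k n) R := by
    intro n m hnm
    induction m, hnm using Nat.le_induction with
    | base => exact ⟨1, (mul_one _).symm, Cond.pure_one _ _⟩
    | succ m hnm ih =>
      obtain ⟨R, hR, hR'⟩ := ih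
      refine ⟨R * s m, by rw [hTs, hR, mul_assoc], hR'.mul ?_⟩
      exact (hs2 m).mono (hE hnm) (hk.monotone hnm)
  have hconv : ∀ n m, n + 1 ≤ m → ∀ x, Agree (E n) (k n) ((T m).f x) ((T (n + 1)).f x) := by
    intro n m hnm x
    obtain ⟨R, hR, hR'⟩ := htail (n + 1) m hnm
    rw [hR]
    exact hs7 n _ _ (hR' x)
  have hkn : ∀ n, n ≤ k n := fun n => hk.le_apply
  -- the limit
  have hN : ∀ (γ : I) (i : ℕ), ∃ N, ∀ m, N ≤ m → ∀ x, (T m).f x γ i = (T N).f x γ i := by
    intro γ i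
    by_cases h : ∃ n, γ ∈ E n
    · obtain ⟨n, hn⟩ := h
      have h1 : γ ∈ E (max n (i + 1)) := hE (le_max_left _ _) hn
      have h2 : i < k (max n (i + 1)) :=
        (Nat.lt_succ_self i).trans_le ((le_max_right n (i + 1)).trans (hkn _))
      exact ⟨max n (i + 1) + 1, fun m hm x => hconv _ m hm x γ h1 i h2⟩
    · refine ⟨0, fun m _ x => ?_⟩
      have h1 : ∀ m, γ ∉ (T m).supp := fun m hm => h (hTE m γ hm)
      rw [Cond.not_mem_supp.1 (h1 m), Cond.not_mem_supp.1 (h1 0)]
  choose N hN using hN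
  let tf : Pt I → Pt I := fun x γ i => (T (N γ i)).f x γ i
  have htf : ∀ γ i m, N γ i ≤ m → ∀ x, (T m).f x γ i = tf x γ i := fun γ i m hm x => hN γ i m hm x
  have htend : ∀ x, Tendsto (fun m => (T m).f x) atTop (𝓝 (tf x)) := by
    intro x
    rw [tendsto_pi_nhds]
    intro γ
    rw [tendsto_pi_nhds]
    intro i
    apply tendsto_const_nhds.congr'
    filter_upwards [eventually_ge_atTop (N γ i)] with m hm
    exact (htf γ i m hm x).symm
  have hcont : Continuous tf := by
    refine continuous_pi fun γ => continuous_pi fun i => ?_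
    exact (continuous_apply i).comp ((continuous_apply γ).comp (T (N γ i)).cont)
  have hlow : ∀ γ x y, (∀ β ≤ γ, x β = y β) → tf x γ = tf y γ := by
    intro γ x y h
    funext i
    exact congrFun ((T (N γ i)).low γ x y h) i
  -- the limit is in the range of every `T n`
  have hrange : ∀ n x, ∃ v, (T n).f v = tf x ∧ Agree (E n) (k n) v x := by
    intro n x
    have hcl : IsClosed {v : Pt I | Agree (E n) (k n) v x} := by
      have h3 : {v | Agree (E n) (k n) v x} =
          ⋂ γ ∈ E n, ⋂ i ∈ Finset.range (k n), {v : Pt I | v γ i = x γ i} := by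
        ext v
        simp [Agree]
      rw [h3]
      refine isClosed_biInter fun γ _ => isClosed_biInter fun i _ => ?_
      have h4 : Continuous fun v : Pt I => v γ i := (continuous_apply i).comp (continuous_apply γ)
      exact (isClosed_discrete {x γ i}).preimage h4
    have hcl2 := (hcl.isCompact.image (T n).cont).isClosed
    have h5 : tf x ∈ (T n).f '' {v | Agree (E n) (k n) v x} := by
      apply hcl2.mem_of_tendsto (htend x)
      filter_upwards [eventually_ge_atTop n] with m hm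
      obtain ⟨R, hR, hR'⟩ := htail n m hm
      rw [hR]
      exact ⟨R.f x, hR' x, rfl⟩
    obtain ⟨v, hv, hv'⟩ := h5
    exact ⟨v, hv', hv⟩
  have hsplit : ∀ γ x y n, (∀ β < γ, x β = y β) → (∀ i < n, x γ i = y γ i) → x γ n ≠ y γ n →
      ∃ m, (∀ i < m, tf x γ i = tf y γ i) ∧ tf x γ m = x γ n ∧ tf y γ m = y γ n := by
    intro γ x y n h h1 h2
    by_cases hγ : ∃ m, γ ∈ E m
    · obtain ⟨m₀, hm₀⟩ := hγ
      obtain ⟨m, hm⟩ : ∃ m, m = max m₀ (n + 1) := ⟨_, rfl⟩
      have h3 : γ ∈ E m := hE (by omega) hm₀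
      have h4 : n < k m := by
        have := hkn m
        omega
      obtain ⟨v, hv, hv'⟩ := hrange m x
      obtain ⟨w, hw, hw'⟩ := hrange m y
      have h5 : ∀ β < γ, v β = w β := by
        apply (T m).inj_lt
        intro β hβ
        rw [hv, hw]
        exact hlow β x y fun δ hδ => h δ (hδ.trans_lt hβ)
      obtain ⟨l, h6, h7, h8⟩ := (T m).split γ v w n h5
        (fun i hi => by rw [hv' γ h3 i (hi.trans h4), hw' γ h3 i (hi.trans h4), h1 i hi])
        (by rw [hv' γ h3 n h4, hw' γ h3 n h4]; exact h2)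
      rw [hv, hw] at h6
      rw [hv, hv' γ h3 n h4] at h7
      rw [hw, hw' γ h3 n h4] at h8
      exact ⟨l, h6, h7, h8⟩
    · have h3 : ∀ x, tf x γ = x γ := by
        intro x
        funext i
        exact congrFun (Cond.not_mem_supp.1 (fun h => hγ (hTE _ γ h)) x) i
      rw [h3, h3]
      exact ⟨n, h1, rfl, rfl⟩
  have hsuppE : {γ | ∃ x, tf x γ ≠ x γ} ⊆ ⋃ n, (↑(E n) : Set I) := by
    rintro γ ⟨x, hx⟩
    by_contra hcon
    apply hx
    funext i
    refine congrFun (Cond.not_mem_supp.1 (fun h => hcon ?_) x) i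
    obtain ⟨m, hm⟩ := hTE _ γ h
    exact mem_iUnion.2 ⟨m, hm⟩
  have hctb : {γ | ∃ x, tf x γ ≠ x γ}.Countable :=
    (countable_iUnion fun n => (E n).countable_toSet).mono hsuppE
  let t : Cond I := ⟨tf, hcont, hlow, hsplit, hctb⟩
  refine ⟨t, E, k, ?_, hE, hk, hEB, hA₀E, ?_, ?_, ?_⟩
  · intro γ hγ
    obtain ⟨n, hn⟩ := mem_iUnion.1 (hsuppE hγ)
    exact hEB n hn
  · intro γ hγ
    exact mem_iUnion.1 (hsuppE hγ)
  · intro n
    choose g hg hg' using hrange (n + 1)
    obtain ⟨ψ, hψ⟩ := (T (n + 1)).exists_div tf hcont hlow hsplit hctb g hg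
    have h1 : t = T (n + 1) * ψ := by
      ext1 x
      change tf x = (T (n + 1)).f (ψ.f x)
      rw [hψ, hg]
    rw [h1]
    apply hst
    · rw [hTs]
      exact hs3 n
    · intro x
      rw [hψ]
      exact (hg' x).mono (hE (Nat.le_succ n)) (hk.monotone (Nat.le_succ n))
  · intro n x y hxy
    have h1 : ∀ x, Agree (E n) (k n) (tf x) ((T (n + 1)).f x) := by
      intro x γ hγ i hi
      rw [← htf γ i (max (N γ i) (n + 1)) (le_max_left _ _)]
      exact hconv n _ (le_max_right _ _) x γ hγ i hi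
    exact (h1 x).trans ((hs7 n x y hxy).trans (h1 y).symm)

end Pool.Agent.Helper79K.TS
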