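import Pool.Agent.Helper79K.TS.Cond

/-!
Regions, shifts onto regions, amalgamation, pure conditions.
-/

set_option autoImplicit false

namespace Pool.Agent.Helper79K.TS

open Set

variable {I : Type}

/-- `x` and `y` agree on the first `k` terms of the coordinates in `E` -/
def Agree (E : Finset I) (k : ℕ) (x y : Pt I) : Prop := ∀ γ ∈ E, ∀ i < k, x γ i = y γ i

theorem Agree.refl (E : Finset I) (k : ℕ) (x : Pt I) : Agree E k x x := fun _ _ _ _ => rfl

theorem Agree.symm {E : Finset I} {k : ℕ} {x y : Pt I} (h : Agree E k x y) : Agree E k y x :=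
  fun γ hγ i hi => (h γ hγ i hi).symm

theorem Agree.trans {E : Finset I} {k : ℕ} {x y z : Pt I} (h : Agree E k x y)
    (h' : Agree E k y z) : Agree E k x z :=
  fun γ hγ i hi => (h γ hγ i hi).trans (h' γ hγ i hi)

theorem Agree.mono {E E' : Finset I} {k k' : ℕ} {x y : Pt I} (h : Agree E k x y) (hE : E' ⊆ E)
    (hk : k' ≤ k) : Agree E' k' x y :=
  fun γ hγ i hi => h γ (hE hγ) i (hi.trans_le hk)

open Classical in
/-- the point `x` with the first `k` terms of `τ` inserted at the coordinates in `E` -/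
noncomputable def shf (E : Finset I) (k : ℕ) (τ x : Pt I) : Pt I :=
  fun γ i => if γ ∈ E then (if i < k then τ γ i else x γ (i - k)) else x γ i

open Classical in
/-- the first `k` terms at the coordinates in `E` are removed -/
noncomputable def unf (E : Finset I) (k : ℕ) (x : Pt I) : Pt I :=
  fun γ i => if γ ∈ E then x γ (i + k) else x γ i

section

variable {E : Finset I} {k : ℕ} {τ x : Pt I} {γ : I}

theorem shf_not (h : γ ∉ E) : shf E k τ x γ = x γ := by
  funext i
  simp [shf, h]

theorem shf_lt (h : γ ∈ E) {i : ℕ} (hi : i < k) : shf E k τ x γ i = τ γ i := by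
  simp [shf, h, hi]

theorem shf_ge (h : γ ∈ E) {i : ℕ} (hi : k ≤ i) : shf E k τ x γ i = x γ (i - k) := by
  simp [shf, h, not_lt.2 hi]

theorem shf_add (h : γ ∈ E) (i : ℕ) : shf E k τ x γ (i + k) = x γ i := by
  rw [shf_ge h (by omega), Nat.add_sub_cancel]

theorem unf_not (h : γ ∉ E) : unf E k x γ = x γ := by
  funext i
  simp [unf, h]

theorem unf_mem (h : γ ∈ E) (i : ℕ) : unf E k x γ i = x γ (i + k) := by
  simp [unf, h]

theorem unf_shf : unf E k (shf E k τ x) = x := by
  funext γ i
  by_cases h : γ ∈ E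
  · rw [unf_mem h, shf_add h]
  · rw [unf_not h, shf_not h]

theorem shf_unf (hx : Agree E k x τ) : shf E k τ (unf E k x) = x := by
  funext γ i
  by_cases h : γ ∈ E
  · by_cases hi : i < k
    · rw [shf_lt h hi, hx γ h i hi]
    · rw [shf_ge h (not_lt.1 hi), unf_mem h, Nat.sub_add_cancel (not_lt.1 hi)]
  · rw [shf_not h, unf_not h]

theorem agree_shf : Agree E k (shf E k τ x) τ := fun _ hγ _ hi => shf_lt hγ hi

theorem shf_congr {τ' : Pt I} (h : Agree E k τ τ') : shf E k τ x = shf E k τ' x := by
  funext γ i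
  by_cases hγ : γ ∈ E
  · by_cases hi : i < k
    · rw [shf_lt hγ hi, shf_lt hγ hi, h γ hγ i hi]
    · rw [shf_ge hγ (not_lt.1 hi), shf_ge hγ (not_lt.1 hi)]
  · rw [shf_not hγ, shf_not hγ]

theorem continuous_shf (E : Finset I) (k : ℕ) (τ : Pt I) : Continuous (shf E k τ) := by
  refine continuous_pi fun γ => continuous_pi fun i => ?_
  by_cases h : γ ∈ E
  · by_cases hi : i < k
    · simp only [shf, h, hi, if_true]
      exact continuous_const
    · simp only [shf, h, hi, if_true, if_false]
      exact (continuous_apply _).comp (continuous_apply γ)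
  · simp only [shf, h, if_false]
    exact (continuous_apply _).comp (continuous_apply γ)

theorem continuous_unf (E : Finset I) (k : ℕ) : Continuous (unf E k : Pt I → Pt I) := by
  refine continuous_pi fun γ => continuous_pi fun i => ?_
  by_cases h : γ ∈ E
  · simp only [unf, h, if_true]
    exact (continuous_apply _).comp (continuous_apply γ)
  · simp only [unf, h, if_false]
    exact (continuous_apply _).comp (continuous_apply γ)

end

/-- finitely many regions -/
theorem exists_reps (E : Finset I) (k : ℕ) : ∃ L : Finset (Pt I), ∀ x, ∃ τ ∈ L, Agree E k x τ := by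
  classical
  let g : (E → Fin k → Fin 3) → Pt I := fun f γ i =>
    if h : γ ∈ E then (if hi : i < k then f ⟨γ, h⟩ ⟨i, hi⟩ else 0) else 0
  refine ⟨Finset.univ.image g, fun x => ⟨g (fun γ i => x γ i), ?_, ?_⟩⟩
  · exact Finset.mem_image_of_mem _ (Finset.mem_univ _)
  · intro γ hγ i hi
    simp [g, hγ, hi]

variable [LinearOrder I]

namespace Cond

/-- the shift onto a region -/
noncomputable def sh (E : Finset I) (k : ℕ) (τ : Pt I) : Cond I where
  f := shf E k τ
  cont := continuous_shf E k τ
  low γ x y h := by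
    by_cases hE : γ ∈ E
    · funext i
      by_cases hi : i < k
      · rw [shf_lt hE hi, shf_lt hE hi]
      · rw [shf_ge hE (not_lt.1 hi), shf_ge hE (not_lt.1 hi), h γ le_rfl]
    · rw [shf_not hE, shf_not hE, h γ le_rfl]
  split γ x y n h h1 h2 := by
    by_cases hE : γ ∈ E
    · refine ⟨n + k, ?_, shf_add hE n, shf_add hE n⟩
      intro i hi
      by_cases hik : i < k
      · rw [shf_lt hE hik, shf_lt hE hik]
      · rw [shf_ge hE (not_lt.1 hik), shf_ge hE (not_lt.1 hik)]
        exact h1 _ (by omega)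
    · exact ⟨n, fun i hi => by rw [shf_not hE, shf_not hE]; exact h1 i hi, by rw [shf_not hE],
        by rw [shf_not hE]⟩
  ctb := by
    apply E.countable_toSet.mono
    rintro γ ⟨x, hx⟩
    by_contra h
    exact hx (shf_not h)

@[simp] theorem sh_f (E : Finset I) (k : ℕ) (τ x : Pt I) : (sh E k τ).f x = shf E k τ x := rfl

theorem supp_sh (E : Finset I) (k : ℕ) (τ : Pt I) : (sh E k τ).supp ⊆ E := by
  rintro γ ⟨x, hx⟩
  by_contra h
  exact hx (shf_not h)

theorem sh_congr {E : Finset I} {k : ℕ} {τ τ' : Pt I} (h : Agree E k τ τ') :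
    sh E k τ = sh E k τ' := by
  ext1 x
  exact shf_congr h

/-- a condition with values in a region factors through the shift -/
theorem factor {E : Finset I} {k : ℕ} {τ : Pt I} (r : Cond I) (hr : ∀ x, Agree E k (r.f x) τ) :
    ∃ s : Cond I, r = sh E k τ * s ∧ s.supp ⊆ r.supp ∪ E ∧ ∀ x, s.f x = unf E k (r.f x) := by
  refine ⟨{
    f := fun x => unf E k (r.f x)
    cont := (continuous_unf E k).comp r.cont
    low := ?_
    split := ?_
    ctb := ?_ }, ?_, ?_, fun _ => rfl⟩
  · intro γ x y h
    have h1 := r.low γ x y h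
    funext i
    by_cases hE : γ ∈ E
    · rw [unf_mem hE, unf_mem hE, h1]
    · rw [unf_not hE, unf_not hE, h1]
  · intro γ x y n h h1 h2
    obtain ⟨m, h3, h4, h5⟩ := r.split γ x y n h h1 h2
    by_cases hE : γ ∈ E
    · have hm : k ≤ m := by
        by_contra hcon
        push Not at hcon
        apply h2
        rw [← h4, ← h5, hr x γ hE m hcon, hr y γ hE m hcon]
      refine ⟨m - k, ?_, ?_, ?_⟩
      · intro i hi
        rw [unf_mem hE, unf_mem hE]
        exact h3 _ (by omega)
      · rw [unf_mem hE, Nat.sub_add_cancel hm, h4]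
      · rw [unf_mem hE, Nat.sub_add_cancel hm, h5]
    · refine ⟨m, ?_, ?_, ?_⟩
      · intro i hi
        rw [unf_not hE, unf_not hE]
        exact h3 i hi
      · rw [unf_not hE, h4]
      · rw [unf_not hE, h5]
  · apply (r.ctb.union E.countable_toSet).mono
    rintro γ ⟨x, hx⟩
    by_contra hcon
    rw [Set.mem_union, not_or] at hcon
    have hE : γ ∉ E := hcon.2
    rw [unf_not hE] at hx
    exact hcon.1 ⟨x, hx⟩
  · ext1 x
    exact (shf_unf (hr x)).symm
  · rintro γ ⟨x, hx⟩
    by_contra hcon
    rw [Set.mem_union, not_or] at hcon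
    have hE : γ ∉ E := hcon.2
    have hx' : unf E k (r.f x) γ ≠ x γ := hx
    rw [unf_not hE] at hx'
    exact hcon.1 ⟨x, hx'⟩

/-- the condition preserves the regions given by `E` and `k` -/
def Pure (E : Finset I) (k : ℕ) (p : Cond I) : Prop := ∀ x, Agree E k (p.f x) x

theorem Pure.mul {E : Finset I} {k : ℕ} {p q : Cond I} (hp : Pure E k p) (hq : Pure E k q) :
    Pure E k (p * q) := fun x => (hp _).trans (hq x)

theorem Pure.mono {E E' : Finset I} {k k' : ℕ} {p : Cond I} (hp : Pure E k p) (hE : E' ⊆ E)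
    (hk : k' ≤ k) : Pure E' k' p := fun x => (hp x).mono hE hk

theorem pure_one (E : Finset I) (k : ℕ) : Pure E k (1 : Cond I) := fun _ => Agree.refl _ _ _

theorem Pure.comm {E : Finset I} {k : ℕ} {p : Cond I} (hp : Pure E k p) (τ : Pt I) :
    ∃ s : Cond I, p * sh E k τ = sh E k τ * s := by
  obtain ⟨s, hs, -⟩ := factor (p * sh E k τ) (τ := τ) fun x => (hp _).trans agree_shf
  exact ⟨s, hs⟩

open Classical in
/-- the map `s` on the region `τ`, extended trivially to the other regions -/
noncomputable def amf (E : Finset I) (k : ℕ) (τ : Pt I) (s : Cond I) (x : Pt I) : Pt I := fun γ =>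
  if ∀ β ∈ E, β ≤ γ → ∀ i < k, x β i = τ β i then shf E k τ (s.f (unf E k x)) γ else x γ

section am

variable {E : Finset I} {k : ℕ} {τ : Pt I} {s : Cond I} {x : Pt I} {γ : I}

theorem amf_in (h : ∀ β ∈ E, β ≤ γ → ∀ i < k, x β i = τ β i) :
    amf E k τ s x γ = shf E k τ (s.f (unf E k x)) γ := if_pos h

theorem amf_out (h : ¬ ∀ β ∈ E, β ≤ γ → ∀ i < k, x β i = τ β i) : amf E k τ s x γ = x γ := if_neg h

theorem amf_agree : Agree E k (amf E k τ s x) x := by
  intro γ hγ i hi
  by_cases h : ∀ β ∈ E, β ≤ γ → ∀ i < k, x β i = τ β i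
  · rw [amf_in h, shf_lt hγ hi, h γ hγ le_rfl i hi]
  · rw [amf_out h]

theorem unf_low {x y : Pt I} (h : ∀ β ≤ γ, x β = y β) : ∀ β ≤ γ, unf E k x β = unf E k y β := by
  intro β hβ
  funext i
  by_cases hE : β ∈ E
  · rw [unf_mem hE, unf_mem hE, h β hβ]
  · rw [unf_not hE, unf_not hE, h β hβ]

theorem unf_low_lt {x y : Pt I} (h : ∀ β < γ, x β = y β) :
    ∀ β < γ, unf E k x β = unf E k y β := by
  intro β hβ
  funext i
  by_cases hE : β ∈ E
  · rw [unf_mem hE, unf_mem hE, h β hβ]
  · rw [unf_not hE, unf_not hE, h β hβ]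

end am

theorem isClopen_in (E : Finset I) (k : ℕ) (τ : Pt I) (γ : I) :
    IsClopen {x : Pt I | ∀ β ∈ E, β ≤ γ → ∀ i < k, x β i = τ β i} := by
  have h1 : {x : Pt I | ∀ β ∈ E, β ≤ γ → ∀ i < k, x β i = τ β i} =
      ⋂ β ∈ E, ⋂ (_ : β ≤ γ), ⋂ i ∈ Finset.range k, {x : Pt I | x β i = τ β i} := by
    ext x
    simp
  rw [h1]
  refine isClopen_biInter_finset fun β _ => ?_
  by_cases hβ : β ≤ γ
  · simp only [hβ, iInter_true]
    refine isClopen_biInter_finset fun i _ => ?_
    have h2 : Continuous fun x : Pt I => x β i := (continuous_apply i).comp (continuous_apply β)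
    exact (isClopen_discrete {τ β i}).preimage h2
  · simp only [hβ, iInter_false]
    exact isClopen_univ

/-- the amalgamation of `s` on the region `τ` with the identity -/
noncomputable def am (E : Finset I) (k : ℕ) (τ : Pt I) (s : Cond I) : Cond I where
  f := amf E k τ s
  cont := by
    classical
    refine continuous_pi fun γ => ?_
    have h1 : (fun x => amf E k τ s x γ) =
        {x : Pt I | ∀ β ∈ E, β ≤ γ → ∀ i < k, x β i = τ β i}.piecewise
          (fun x => shf E k τ (s.f (unf E k x)) γ) (fun x => x γ) := by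
      funext x
      by_cases h : x ∈ {x : Pt I | ∀ β ∈ E, β ≤ γ → ∀ i < k, x β i = τ β i}
      · rw [Set.piecewise_eq_of_mem _ _ _ h]
        exact amf_in h
      · rw [Set.piecewise_eq_of_notMem _ _ _ h]
        exact amf_out h
    rw [h1]
    refine Continuous.piecewise ?_ ?_ (continuous_apply γ)
    · intro x hx
      rw [(isClopen_in E k τ γ).frontier_eq] at hx
      exact absurd hx (Set.notMem_empty x)
    · exact (continuous_apply γ).comp ((continuous_shf E k τ).comp (s.cont.comp (continuous_unf E k)))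
  low γ x y h := by
    by_cases hx : ∀ β ∈ E, β ≤ γ → ∀ i < k, x β i = τ β i
    · have hy : ∀ β ∈ E, β ≤ γ → ∀ i < k, y β i = τ β i := by
        intro β hβ hle i hi
        rw [← h β hle]
        exact hx β hβ hle i hi
      rw [amf_in hx, amf_in hy]
      exact (sh E k τ).low γ _ _ (s.low_le (unf_low h))
    · have hy : ¬ ∀ β ∈ E, β ≤ γ → ∀ i < k, y β i = τ β i := by
        intro hy
        apply hx
        intro β hβ hle i hi
        rw [h β hle]
        exact hy β hβ hle i hi
      rw [amf_out hx, amf_out hy]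
      exact h γ le_rfl
  split γ x y n h h1 h2 := by
    by_cases hcase : γ ∈ E ∧ n < k
    · obtain ⟨hE, hn⟩ := hcase
      refine ⟨n, fun i hi => ?_, amf_agree γ hE n hn, amf_agree γ hE n hn⟩
      rw [amf_agree γ hE i (hi.trans hn), amf_agree γ hE i (hi.trans hn)]
      exact h1 i hi
    · -- the two points are in the same regions
      have hxy : ∀ β ∈ E, β ≤ γ → ∀ i < k, x β i = y β i := by
        intro β hβ hle i hi
        rcases hle.lt_or_eq with hlt | rfl
        · rw [h β hlt]
        · apply h1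
          by_contra hcon
          exact hcase ⟨hβ, by omega⟩
      by_cases hx : ∀ β ∈ E, β ≤ γ → ∀ i < k, x β i = τ β i
      · have hy : ∀ β ∈ E, β ≤ γ → ∀ i < k, y β i = τ β i := fun β hβ hle i hi =>
          (hxy β hβ hle i hi).symm.trans (hx β hβ hle i hi)
        rw [amf_in hx, amf_in hy]
        by_cases hE : γ ∈ E
        · have hn : k ≤ n := by
            by_contra hcon
            exact hcase ⟨hE, by omega⟩
          obtain ⟨m, h3, h4, h5⟩ := (sh E k τ * s).split γ (unf E k x) (unf E k y) (n - k)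
            (unf_low_lt h) (fun i hi => by
              rw [unf_mem hE, unf_mem hE]
              exact h1 _ (by omega)) (by
              rw [unf_mem hE, unf_mem hE, Nat.sub_add_cancel hn]
              exact h2)
          rw [unf_mem hE, Nat.sub_add_cancel hn] at h4 h5
          exact ⟨m, h3, h4, h5⟩
        · obtain ⟨m, h3, h4, h5⟩ := (sh E k τ * s).split γ (unf E k x) (unf E k y) n
            (unf_low_lt h) (fun i hi => by
              rw [unf_not hE, unf_not hE]
              exact h1 _ hi) (by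
              rw [unf_not hE, unf_not hE]
              exact h2)
          rw [unf_not hE] at h4 h5
          exact ⟨m, h3, h4, h5⟩
      · have hy : ¬ ∀ β ∈ E, β ≤ γ → ∀ i < k, y β i = τ β i := fun hy =>
          hx fun β hβ hle i hi => (hxy β hβ hle i hi).trans (hy β hβ hle i hi)
        rw [amf_out hx, amf_out hy]
        exact ⟨n, h1, rfl, rfl⟩
  ctb := by
    apply (s.ctb.union E.countable_toSet).mono
    rintro γ ⟨x, hx⟩
    by_contra hcon
    rw [Set.mem_union, not_or] at hcon
    have hE : γ ∉ E := hcon.2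
    apply hx
    by_cases hin : ∀ β ∈ E, β ≤ γ → ∀ i < k, x β i = τ β i
    · rw [amf_in hin, shf_not hE, not_mem_supp.1 hcon.1, unf_not hE]
    · exact amf_out hin

@[simp] theorem am_f (E : Finset I) (k : ℕ) (τ : Pt I) (s : Cond I) (x : Pt I) :
    (am E k τ s).f x = amf E k τ s x := rfl

theorem supp_am (E : Finset I) (k : ℕ) (τ : Pt I) (s : Cond I) :
    (am E k τ s).supp ⊆ s.supp ∪ E := by
  rintro γ ⟨x, hx⟩
  by_contra hcon
  rw [Set.mem_union, not_or] at hcon
  have hE : γ ∉ E := hcon.2
  apply hx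
  by_cases hin : ∀ β ∈ E, β ≤ γ → ∀ i < k, x β i = τ β i
  · rw [am_f, amf_in hin, shf_not hE, not_mem_supp.1 hcon.1, unf_not hE]
  · exact amf_out hin

theorem pure_am (E : Finset I) (k : ℕ) (τ : Pt I) (s : Cond I) : Pure E k (am E k τ s) :=
  fun _ => amf_agree

theorem am_mul_sh (E : Finset I) (k : ℕ) (τ : Pt I) (s : Cond I) :
    am E k τ s * sh E k τ = sh E k τ * s := by
  ext1 x
  funext γ
  rw [mul_f, am_f, sh_f, amf_in, unf_shf]
  · rfl
  · intro β hβ _ i hi
    exact shf_lt hβ hi

end Cond

end Pool.Agent.Helper79K.TS
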