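import Mathlib
import Pool.Agent.Helper79K.TS.Sent

/-!
The avoidance property implies that there are no small covers of the plane by graphs of
differentiable functions.
-/

set_option autoImplicit false

namespace Pool.Agent.Helper79K.TS

open Set Cardinal

theorem Pre.of_append {x : ℕ → Fin 3} {t u : List (Fin 3)} (h : Pre x (t ++ u)) : Pre x t := by
  intro i hi
  rw [h i (by rw [List.length_append]; omega), List.getD_append _ _ _ _ hi]

theorem Pre.last {x : ℕ → Fin 3} {t : List (Fin 3)} {j : Fin 3} (h : Pre x (t ++ [j])) :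
    x t.length = j := by
  rw [h _ (by simp), List.getD_append_right _ _ _ _ le_rfl, Nat.sub_self]
  rfl

/-- the real number with the decimal digits `a (z n)` -/
noncomputable def dg (a : Fin 3 → Fin 10) (z : ℕ → Fin 3) : ℝ := Real.ofDigits fun i => a (z i)

theorem dg_close (a : Fin 3 → Fin 10) {z z' : ℕ → Fin 3} {m : ℕ} (h : ∀ i < m, z i = z' i) :
    |dg a z - dg a z'| ≤ (1 / 10 : ℝ) ^ m := by
  have h1 := Real.abs_ofDigits_sub_ofDigits_le (b := 10) (x := fun i => a (z i))
    (y := fun i => a (z' i)) (n := m) (fun i hi => by rw [h i hi])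
  rw [one_div, inv_pow]
  exact_mod_cast h1

theorem dg_diff (a : Fin 3 → Fin 10) {z z' : ℕ → Fin 3} {m : ℕ} (h : ∀ i < m, z i = z' i) :
    ∃ e : ℝ, |e| ≤ 1 ∧ dg a z - dg a z' =
      (1 / 10 : ℝ) ^ (m + 1) * (((a (z m) : ℕ) : ℝ) - ((a (z' m) : ℕ) : ℝ) + e) := by
  have h1 := Real.ofDigits_eq_sum_add_ofDigits (b := 10) (fun i => a (z i)) (m + 1)
  have h2 := Real.ofDigits_eq_sum_add_ofDigits (b := 10) (fun i => a (z' i)) (m + 1)
  refine ⟨Real.ofDigits (fun i => a (z (i + (m + 1)))) -
    Real.ofDigits (fun i => a (z' (i + (m + 1)))), ?_, ?_⟩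
  · have h3 := Real.ofDigits_nonneg (fun i => a (z (i + (m + 1))))
    have h4 := Real.ofDigits_nonneg (fun i => a (z' (i + (m + 1))))
    have h5 := Real.ofDigits_le_one (fun i => a (z (i + (m + 1))))
    have h6 := Real.ofDigits_le_one (fun i => a (z' (i + (m + 1))))
    rw [abs_le]
    constructor <;> linarith
  · unfold dg
    rw [h1, h2, Finset.sum_range_succ, Finset.sum_range_succ]
    have h3 : ∑ i ∈ Finset.range m, Real.ofDigitsTerm (fun i => a (z i)) i =
        ∑ i ∈ Finset.range m, Real.ofDigitsTerm (fun i => a (z' i)) i := by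
      refine Finset.sum_congr rfl fun i hi => ?_
      simp only [Real.ofDigitsTerm]
      rw [h i (Finset.mem_range.1 hi)]
    rw [h3]
    simp only [Real.ofDigitsTerm, one_div, inv_pow]
    push_cast
    ring

theorem full_append {T : List (Fin 3) → Prop} (hT : Full T) :
    ∃ s : ℕ → List (Fin 3), (∀ k, ∃ u, s (k + 1) = s k ++ u ++ [0] ∧
      ∀ i, T (s k ++ u ++ [i])) := by
  classical
  have h1 : ∀ t : List (Fin 3), ∃ u : List (Fin 3), T t → ∀ i, T (t ++ u ++ [i]) := by
    intro t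
    by_cases ht : T t
    · obtain ⟨u, hu⟩ := hT.2 t ht
      exact ⟨u, fun _ => hu⟩
    · exact ⟨[], fun h => absurd h ht⟩
  choose u hu using h1
  let s : ℕ → List (Fin 3) := fun n => Nat.rec [] (fun _ t => t ++ u t ++ [0]) n
  have hs : ∀ k, s (k + 1) = s k ++ u (s k) ++ [0] := fun k => rfl
  have hT' : ∀ k, T (s k) := by
    intro k
    induction k with
    | zero => exact hT.1
    | succ k ih =>
      rw [hs]
      exact hu _ ih 0
  exact ⟨s, fun k => ⟨u (s k), hs k, hu _ (hT' k)⟩⟩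

/-- the graph of a differentiable function, seen through the two digit maps, contains no full
set -/
theorem no_full {g : ℝ → ℝ} (hg : Differentiable ℝ g) {a b : Fin 3 → Fin 10} {j j' : Fin 3}
    (ha0 : a 0 = 0) (hb0 : b 0 = 0) (haj : a j = 3) (hbj : b j = 9) (haj' : a j' = 9)
    (hbj' : b j' = 3) {T : List (Fin 3) → Prop} (hT : Full T) :
    ∃ t, T t ∧ ∀ z, g (dg a z) = dg b z → ¬ Pre z t := by
  by_contra hcon
  push Not at hcon
  choose! p hp1 hp2 using hcon
  obtain ⟨s, hs⟩ := full_append hT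
  choose u hu1 hu2 using hs
  have hlen : ∀ k, k ≤ (s k).length := by
    intro k
    induction k with
    | zero => exact Nat.zero_le _
    | succ k ih =>
      rw [hu1]
      simp only [List.length_append, List.length_singleton]
      omega
  have hmono : ∀ k l, k ≤ l → ∃ v, s l = s k ++ v := by
    intro k l hkl
    induction l, hkl using Nat.le_induction with
    | base => exact ⟨[], by simp⟩
    | succ l _ ih =>
      obtain ⟨v, hv⟩ := ih
      refine ⟨v ++ (u l ++ [0]), ?_⟩
      rw [hu1, hv]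
      simp
  let zs : ℕ → Fin 3 := fun n => (s (n + 1)).getD n 0
  have hzs : ∀ k, Pre zs (s k) := by
    intro k i hi
    have h1 : i < (s (i + 1)).length := hlen (i + 1)
    rcases le_total k (i + 1) with h | h
    · obtain ⟨v, hv⟩ := hmono _ _ h
      change (s (i + 1)).getD i 0 = _
      rw [hv, List.getD_append _ _ _ _ hi]
    · obtain ⟨v, hv⟩ := hmono _ _ h
      rw [hv, List.getD_append _ _ _ _ h1]
  -- the derivative
  have hd := (hg (dg a zs)).hasDerivAt
  obtain ⟨L, hL⟩ : ∃ L, HasDerivAt g L (dg a zs) := ⟨_, hd⟩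
  rw [hasDerivAt_iff_isLittleO] at hL
  have hL2 := hL.def (c := 1 / 20) (by norm_num)
  obtain ⟨δ, hδ, hδ2⟩ := Metric.eventually_nhds_iff.1 hL2
  obtain ⟨k, hk⟩ := exists_pow_lt_of_lt_one hδ (show (1 / 10 : ℝ) < 1 by norm_num)
  obtain ⟨m, hm⟩ : ∃ m, m = (s k ++ u k).length := ⟨_, rfl⟩
  have hkm : k ≤ m := by
    have := hlen k
    rw [hm, List.length_append]
    omega
  have hpow : (1 / 10 : ℝ) ^ m ≤ (1 / 10 : ℝ) ^ k :=
    pow_le_pow_of_le_one (by norm_num) (by norm_num) hkm
  -- the three points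
  let q : Fin 3 → ℕ → Fin 3 := fun i => p (s k ++ u k ++ [i])
  have hq1 : ∀ i, g (dg a (q i)) = dg b (q i) := fun i => hp1 _ (hu2 k i)
  have hq2 : ∀ i, Pre (q i) (s k ++ u k ++ [i]) := fun i => hp2 _ (hu2 k i)
  have hqz : ∀ i, ∀ n < m, q i n = zs n := by
    intro i n hn
    have h1 : Pre zs (s k ++ u k) := by
      have := hzs (k + 1)
      rw [hu1] at this
      exact this.of_append
    have h2 := (hq2 i).of_append
    rw [h1 n (hm ▸ hn), h2 n (hm ▸ hn)]
  have hqm : ∀ i, q i m = i := by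
    intro i
    rw [hm]
    exact (hq2 i).last
  have hest : ∀ i, |g (dg a (q i)) - g (dg a zs) - (dg a (q i) - dg a zs) * L| ≤
      1 / 20 * (1 / 10 : ℝ) ^ m := by
    intro i
    have h1 := dg_close a (hqz i)
    have h2 : dist (dg a (q i)) (dg a zs) < δ := by
      rw [Real.dist_eq]
      exact (h1.trans hpow).trans_lt hk
    have h3 := hδ2 h2
    simp only [Real.norm_eq_abs, smul_eq_mul] at h3
    refine h3.trans ?_
    exact mul_le_mul_of_nonneg_left h1 (by norm_num)
  obtain ⟨h, hh⟩ : ∃ h : ℝ, h = (1 / 10 : ℝ) ^ (m + 1) := ⟨_, rfl⟩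
  have hhpos : 0 < h := by rw [hh]; positivity
  have hhm : (1 / 10 : ℝ) ^ m = 10 * h := by
    rw [hh, pow_succ]
    ring
  obtain ⟨e1, he1, h1⟩ := dg_diff a (z := q j) (z' := q 0)
    (fun i hi => by rw [hqz _ i hi, hqz _ i hi])
  obtain ⟨e2, he2, h2⟩ := dg_diff b (z := q j) (z' := q 0)
    (fun i hi => by rw [hqz _ i hi, hqz _ i hi])
  obtain ⟨e3, he3, h3⟩ := dg_diff a (z := q j') (z' := q 0)
    (fun i hi => by rw [hqz _ i hi, hqz _ i hi])
  obtain ⟨e4, he4, h4⟩ := dg_diff b (z := q j') (z' := q 0)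
    (fun i hi => by rw [hqz _ i hi, hqz _ i hi])
  rw [hqm, hqm, ha0, haj, ← hh] at h1
  rw [hqm, hqm, hb0, hbj, ← hh] at h2
  rw [hqm, hqm, ha0, haj', ← hh] at h3
  rw [hqm, hqm, hb0, hbj', ← hh] at h4
  have hj := hest j
  have hj' := hest j'
  have h0 := hest 0
  rw [hq1, hhm, abs_le] at hj hj' h0
  rw [abs_le] at he1 he2 he3 he4
  norm_num at h1 h2 h3 h4
  -- the two difference quotients
  have k1 : (9 + e2) - (3 + e1) * L ≤ 1 := by
    have h5 : h * ((9 + e2) - (3 + e1) * L) =
        (dg b (q j) - g (dg a zs) - (dg a (q j) - dg a zs) * L) -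
          (dg b (q 0) - g (dg a zs) - (dg a (q 0) - dg a zs) * L) := by
      linear_combination L * h1 - h2
    have : h * ((9 + e2) - (3 + e1) * L) ≤ h * 1 := by
      rw [h5]
      linarith [hj.2, h0.1]
    exact le_of_mul_le_mul_left this hhpos
  have k2 : -1 ≤ (3 + e4) - (9 + e3) * L := by
    have h5 : h * ((3 + e4) - (9 + e3) * L) =
        (dg b (q j') - g (dg a zs) - (dg a (q j') - dg a zs) * L) -
          (dg b (q 0) - g (dg a zs) - (dg a (q 0) - dg a zs) * L) := by
      linear_combination L * h3 - h4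
    have : h * (-1) ≤ h * ((3 + e4) - (9 + e3) * L) := by
      rw [h5]
      linarith [hj'.1, h0.2]
    exact le_of_mul_le_mul_left this hhpos
  have hLpos : 0 < L := by
    by_contra hneg
    push Not at hneg
    nlinarith
  nlinarith

end Pool.Agent.Helper79K.TS
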