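import Pool.Agent.Helper79K.TS.Fusion

/-!
Separation: of two continuous functions on the space of points, one is a function of the other on
the range of some condition.
-/

set_option autoImplicit false

namespace Pool.Agent.Helper79K.TS

open Set Filter Topology

variable {I : Type} [LinearOrder I] [WellFoundedLT I]

open Cond

/-- a function depends only on the coordinates in `B` -/
def Dep {X : Type} (F : Pt I → X) (B : Set I) : Prop := ∀ x y, (∀ γ ∈ B, x γ = y γ) → F x = F y

omit [WellFoundedLT I] in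
theorem Dep.comp {X : Type} {F : Pt I → X} {B : Set I} (h : Dep F B)
    (hB : ∀ γ ∈ B, ∀ β ≤ γ, β ∈ B) (r : Cond I) : Dep (fun x => F (r.f x)) B := by
  intro x y hxy
  apply h
  intro γ hγ
  exact r.low γ x y fun β hβ => hxy β (hB γ hγ β hβ)

omit [LinearOrder I] [WellFoundedLT I] in
theorem Dep.mono {X : Type} {F : Pt I → X} {B B' : Set I} (h : Dep F B) (hB : B ⊆ B') :
    Dep F B' := fun x y hxy => h x y fun γ hγ => hxy γ (hB hγ)

/-- `F` does not only depend on the coordinates below a member of `B`, not even after composition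
with a condition -/
def Essential (F : Pt I → ℕ → Bool) (B : Set I) : Prop :=
  ∀ γ ∈ B, ∀ s : Cond I, ∃ x y, (∀ β < γ, x β = y β) ∧ F (s.f x) ≠ F (s.f y)

omit [WellFoundedLT I] in
theorem Essential.comp {F : Pt I → ℕ → Bool} {B : Set I} (h : Essential F B) (r : Cond I) :
    Essential (fun x => F (r.f x)) B := by
  intro γ hγ s
  exact h γ hγ (r * s)

omit [WellFoundedLT I] in
/-- separating two regions -/
theorem exists_separate {F : Pt I → ℕ → Bool} (hF : Continuous F) {B : Set I}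
    (hB : ∀ γ ∈ B, ∀ β ≤ γ, β ∈ B) (hdep : Dep F B) (hess : Essential F B) (T : Cond I)
    {E : Finset I} (hE : ↑E ⊆ B) (k : ℕ) {σ σ' : Pt I} (hσ : ¬ Agree E k σ σ') :
    ∃ s : Cond I, s.supp ⊆ B ∧ Pure E k s ∧
      ∀ x y, Agree E k x σ → Agree E k y σ' → F (T.f (s.f x)) ≠ F (T.f (s.f y)) := by
  classical
  -- the first difference
  have hne : (E.filter fun γ => ∃ i < k, σ γ i ≠ σ' γ i).Nonempty := by
    by_contra hcon
    rw [Finset.not_nonempty_iff_eq_empty] at hcon
    apply hσ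
    intro γ hγ i hi
    by_contra hne
    have : γ ∈ E.filter fun γ => ∃ i < k, σ γ i ≠ σ' γ i :=
      Finset.mem_filter.2 ⟨hγ, i, hi, hne⟩
    rw [hcon] at this
    exact absurd this (Finset.notMem_empty γ)
  obtain ⟨γ₀, hγ₀⟩ : ∃ γ₀, γ₀ = (E.filter fun γ => ∃ i < k, σ γ i ≠ σ' γ i).min' hne := ⟨_, rfl⟩
  have hγ₀m : γ₀ ∈ E.filter fun γ => ∃ i < k, σ γ i ≠ σ' γ i := by
    rw [hγ₀]
    exact Finset.min'_mem _ _
  obtain ⟨hγ₀E, i₀, hi₀, hi₀'⟩ := Finset.mem_filter.1 hγ₀m
  -- two values on the region `σ'`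
  obtain ⟨x₀, x₁, hx, hGne⟩ := hess γ₀ (hE hγ₀E) (T * sh E k σ')
  obtain ⟨n, hn⟩ : ∃ n, F ((T * sh E k σ').f x₀) n ≠ F ((T * sh E k σ').f x₁) n := by
    by_contra hcon
    push Not at hcon
    exact hGne (funext hcon)
  obtain ⟨E', k', hE', hG⟩ := exists_agree_seq (fun x => F ((T * sh E k σ').f x))
    (hF.comp (T * sh E k σ').cont) (B := B) (hdep.comp hB _) (n + 1)
  let X : Bool → Pt I := fun b => if b then x₁ else x₀
  let S : Bool → Cond I := fun b => am E k σ' (sh E' k' (X b))
  have hSB : ∀ b, (S b).supp ⊆ B := fun b =>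
    (supp_am _ _ _ _).trans (union_subset ((supp_sh _ _ _).trans hE') hE)
  have hS1 : ∀ b y, F (T.f ((S b).f (shf E k σ' y))) n = F ((T * sh E k σ').f (X b)) n := by
    intro b y
    have h1 : (S b).f (shf E k σ' y) = shf E k σ' (shf E' k' (X b) y) := by
      have := congrArg (fun r : Cond I => r.f y) (am_mul_sh E k σ' (sh E' k' (X b)))
      exact this
    rw [h1]
    exact hG _ _ agree_shf n (Nat.lt_succ_self n)
  -- on the region `σ` both agree
  have hS2 : ∀ x, Agree E k x σ → (S false).f x = (S true).f x := by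
    intro x hxσ
    funext γ
    change amf E k σ' (sh E' k' (X false)) x γ = amf E k σ' (sh E' k' (X true)) x γ
    by_cases hin : ∀ β ∈ E, β ≤ γ → ∀ i < k, x β i = σ' β i
    · have hlt : γ < γ₀ := by
        by_contra hcon
        apply hi₀'
        rw [← hxσ γ₀ hγ₀E i₀ hi₀]
        exact hin γ₀ hγ₀E (not_lt.1 hcon) i₀ hi₀
      rw [amf_in hin, amf_in hin]
      refine (sh E k σ').low γ _ _ fun β hβ => ?_
      have hX : X false β = X true β := by
        simp only [X, if_true, Bool.false_eq_true, if_false]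
        exact hx β (hβ.trans_lt hlt)
      funext i
      by_cases hβE : β ∈ E'
      · by_cases hi : i < k'
        · rw [sh_f, sh_f, shf_lt hβE hi, shf_lt hβE hi, hX]
        · rw [sh_f, sh_f, shf_ge hβE (not_lt.1 hi), shf_ge hβE (not_lt.1 hi)]
      · rw [sh_f, sh_f, shf_not hβE, shf_not hβE]
    · rw [amf_out hin, amf_out hin]
  let xs : Pt I := fun _ _ => 0
  obtain ⟨b, hb⟩ : ∃ b, F ((T * sh E k σ').f (X b)) n ≠
      F (T.f ((S b).f (shf E k σ xs))) n := by
    by_contra hcon
    push Not at hcon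
    have h0 := hcon false
    have h1 := hcon true
    rw [hS2 _ agree_shf, ← h1] at h0
    exact hn h0
  obtain ⟨E'', k'', hE'', hG''⟩ := exists_agree_seq
    (fun x => F ((T * (S b) * sh E k σ).f x)) (hF.comp (T * (S b) * sh E k σ).cont)
    (B := B) (hdep.comp hB _) (n + 1)
  let S₂ : Cond I := am E k σ (sh E'' k'' xs)
  refine ⟨S b * S₂, ?_, (pure_am _ _ _ _).mul (pure_am _ _ _ _), ?_⟩
  · exact (supp_mul _ _).trans (union_subset (hSB b)
      ((supp_am _ _ _ _).trans (union_subset ((supp_sh _ _ _).trans hE'') hE)))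
  · intro x y hx hy heq
    apply hb
    have h1 : F (T.f ((S b * S₂).f x)) n = F (T.f ((S b).f (shf E k σ xs))) n := by
      have h2 : S₂.f x = shf E k σ (shf E'' k'' xs (unf E k x)) := by
        have h3 := congrArg (fun r : Cond I => r.f (unf E k x)) (am_mul_sh E k σ (sh E'' k'' xs))
        have h4 : S₂.f (shf E k σ (unf E k x)) = shf E k σ (shf E'' k'' xs (unf E k x)) := h3
        rwa [shf_unf hx] at h4
      rw [mul_f, h2]
      exact hG'' _ _ agree_shf n (Nat.lt_succ_self n)
    have h2 : F (T.f ((S b * S₂).f y)) n = F ((T * sh E k σ').f (X b)) n := by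
      have h3 : Agree E k (S₂.f y) σ' := (pure_am E k σ (sh E'' k'' xs) y).trans hy
      rw [mul_f, ← shf_unf h3]
      exact hS1 b _
    rw [← h1, ← h2, heq]

omit [WellFoundedLT I] in
/-- separating all regions -/
theorem exists_separate_all {F : Pt I → ℕ → Bool} (hF : Continuous F) {B : Set I}
    (hB : ∀ γ ∈ B, ∀ β ≤ γ, β ∈ B) (hdep : Dep F B) (hess : Essential F B) (T : Cond I)
    {E : Finset I} (hE : ↑E ⊆ B) (k : ℕ) :
    ∃ s : Cond I, s.supp ⊆ B ∧ Pure E k s ∧
      ∀ x y, F (T.f (s.f x)) = F (T.f (s.f y)) → Agree E k x y := by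
  classical
  obtain ⟨L, hL⟩ := exists_reps E k
  have key : ∀ Q : Finset (Pt I × Pt I), ∃ s : Cond I, s.supp ⊆ B ∧ Pure E k s ∧
      ∀ p ∈ Q, ¬ Agree E k p.1 p.2 →
        ∀ x y, Agree E k x p.1 → Agree E k y p.2 → F (T.f (s.f x)) ≠ F (T.f (s.f y)) := by
    intro Q
    induction Q using Finset.induction_on with
    | empty => exact ⟨1, by simp [supp_one], pure_one _ _, by simp⟩
    | insert p Q hp ih =>
      obtain ⟨s, hs1, hs2, hs3⟩ := ih
      by_cases hpa : Agree E k p.1 p.2
      · refine ⟨s, hs1, hs2, ?_⟩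
        intro q hq hqa
        rcases Finset.mem_insert.1 hq with rfl | hq
        · exact absurd hpa hqa
        · exact hs3 q hq hqa
      · obtain ⟨s', hs'1, hs'2, hs'3⟩ := exists_separate hF hB hdep hess (T * s) hE k hpa
        refine ⟨s * s', (supp_mul _ _).trans (union_subset hs1 hs'1), hs2.mul hs'2, ?_⟩
        intro q hq hqa x y hx hy
        rcases Finset.mem_insert.1 hq with rfl | hq
        · exact hs'3 x y hx hy
        · exact hs3 q hq hqa _ _ ((hs'2 x).trans hx) ((hs'2 y).trans hy)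
  obtain ⟨s, hs1, hs2, hs3⟩ := key (L ×ˢ L)
  refine ⟨s, hs1, hs2, fun x y heq => ?_⟩
  by_contra hcon
  obtain ⟨σ, hσ, hxσ⟩ := hL x
  obtain ⟨σ', hσ', hyσ⟩ := hL y
  exact hs3 (σ, σ') (Finset.mem_product.2 ⟨hσ, hσ'⟩)
    (fun h => hcon (hxσ.trans (h.trans hyσ.symm))) x y hxσ hyσ heq

/-- `H` is a function of `F` on the range of a condition -/
theorem exists_function {F H : Pt I → ℕ → Bool} (hF : Continuous F) (hH : Continuous H)
    {B : Set I} (hB : ∀ γ ∈ B, ∀ β ≤ γ, β ∈ B) (hdep : Dep F B) (hess : Essential F B)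
    (hHdep : Dep H B) :
    ∃ t : Cond I, ∀ x y, F (t.f x) = F (t.f y) → H (t.f x) = H (t.f y) := by
  classical
  choose EH kH hEH hmod using fun n => exists_agree_seq H hH hHdep n
  obtain ⟨t, E, k, -, hEm, hk, -, hA, -, hgood, hmodt⟩ := fusion B hB
    (fun _ E k T => ∀ x y, F (T.f x) = F (T.f y) → Agree E k x y)
    (fun n E k T hE _ => by
      obtain ⟨s, hs1, hs2, hs3⟩ := exists_separate_all hF hB hdep hess T hE k
      exact ⟨s, hs1, hs2, hs3⟩)
    (fun n E k T s hT hs x y h => (hs x).symm.trans ((hT _ _ h).trans (hs y)))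
    (⋃ n, (↑(EH n) : Set I)) (countable_iUnion fun n => (EH n).countable_toSet)
    (iUnion_subset hEH)
  refine ⟨t, fun x y heq => ?_⟩
  have h1 : ∀ n, Agree (E n) (k n) (t.f x) (t.f y) := fun n => hmodt n x y (hgood (n + 1) x y heq)
  funext n
  refine hmod (n + 1) _ _ ?_ n (Nat.lt_succ_self n)
  intro γ hγ i hi
  obtain ⟨m, hm⟩ := hA γ (mem_iUnion.2 ⟨n + 1, hγ⟩)
  have h2 : γ ∈ E (max m (i + 1)) := hEm (le_max_left _ _) hm
  have h3 : i < k (max m (i + 1)) :=
    (Nat.lt_succ_self i).trans_le ((le_max_right m (i + 1)).trans hk.le_apply)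
  exact h1 _ γ h2 i h3

/-- the initial segments of `I` -/
def Ini (a : WithTop I) : Set I := {γ | (γ : WithTop I) < a}

omit [WellFoundedLT I] in
theorem ini_lower (a : WithTop I) : ∀ γ ∈ Ini a, ∀ β ≤ γ, β ∈ Ini a := by
  intro γ hγ β hβ
  exact (WithTop.coe_le_coe.2 hβ).trans_lt hγ

omit [WellFoundedLT I] in
theorem ini_mono {a b : WithTop I} (h : a ≤ b) : Ini a ⊆ Ini b := fun _ hγ => lt_of_lt_of_le hγ h

/-- every continuous function can be made essential -/
theorem exists_essential (F : Pt I → ℕ → Bool) :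
    ∃ (a : WithTop I) (r : Cond I), Dep (fun x => F (r.f x)) (Ini a) ∧
      Essential (fun x => F (r.f x)) (Ini a) := by
  let S : Set (WithTop I) := {a | ∃ r : Cond I, Dep (fun x => F (r.f x)) (Ini a)}
  have hS : S.Nonempty := ⟨⊤, 1, fun x y h => by
    have : x = y := funext fun γ => h γ (WithTop.coe_lt_top γ)
    rw [this]⟩
  obtain ⟨r, hr⟩ := WellFounded.min_mem (wellFounded_lt (α := WithTop I)) S hS
  refine ⟨_, r, hr, ?_⟩
  intro γ hγ s
  by_contra hcon
  push Not at hcon
  have h1 : (γ : WithTop I) ∈ S := by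
    refine ⟨r * s, fun x y h => ?_⟩
    exact hcon x y fun β hβ => h β (WithTop.coe_lt_coe.2 hβ)
  exact WellFounded.not_lt_min (wellFounded_lt (α := WithTop I)) S h1 hγ

/-- **Dichotomy.** Of two continuous functions one is a function of the other on the range of some
condition. -/
theorem dichotomy {F H : Pt I → ℕ → Bool} (hF : Continuous F) (hH : Continuous H) :
    ∃ t : Cond I, (∀ x y, F (t.f x) = F (t.f y) → H (t.f x) = H (t.f y)) ∨
      (∀ x y, H (t.f x) = H (t.f y) → F (t.f x) = F (t.f y)) := by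
  obtain ⟨a, r, hr1, hr2⟩ := exists_essential F
  obtain ⟨b, s, hs1, hs2⟩ := exists_essential fun x => H (r.f x)
  have hF1 : Dep (fun x => F ((r * s).f x)) (Ini a) := hr1.comp (ini_lower a) s
  have hF2 : Essential (fun x => F ((r * s).f x)) (Ini a) := hr2.comp s
  rcases le_total b a with h | h
  · obtain ⟨t, ht⟩ := exists_function (hF.comp (r * s).cont) (hH.comp (r * s).cont) (ini_lower a)
      hF1 hF2 (hs1.mono (ini_mono h))
    exact ⟨r * s * t, Or.inl ht⟩
  · obtain ⟨t, ht⟩ := exists_function (hH.comp (r * s).cont) (hF.comp (r * s).cont) (ini_lower b)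
      hs1 hs2 (hF1.mono (ini_mono h))
    exact ⟨r * s * t, Or.inr ht⟩

end Pool.Agent.Helper79K.TS
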