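import Mathlib
import Pool.Agent.Helper79K.TS.Sent

/-!
For the trivial forcing notion the forcing versions of the two properties are equivalent to the
properties themselves.
-/

set_option autoImplicit false

namespace Pool.Agent.Helper79K.TS

open Forc

variable {P : Type} [Preorder P] [Subsingleton P]

theorem triv_le (p q : P) : p ≤ q := by rw [Subsingleton.elim p q]

theorem triv_fnot {φ : Set P} {p : P} : p ∈ fnot φ ↔ p ∉ φ := by
  constructor
  · intro h
    exact h p le_rfl
  · intro h q _ hq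
    rw [Subsingleton.elim p q] at h
    exact h hq

omit [Preorder P] [Subsingleton P] in
theorem triv_fand {φ ψ : Set P} {p : P} : p ∈ fand φ ψ ↔ p ∈ φ ∧ p ∈ ψ := Iff.rfl

omit [Preorder P] [Subsingleton P] in
theorem triv_fall {ι : Sort*} {φ : ι → Set P} {p : P} : p ∈ fall φ ↔ ∀ i, p ∈ φ i := Iff.rfl

theorem triv_fimp {φ ψ : Set P} {p : P} : p ∈ fimp φ ψ ↔ (p ∈ φ → p ∈ ψ) := by
  rw [fimp, triv_fnot, triv_fand, triv_fnot]
  tauto

theorem triv_fex {ι : Sort*} {φ : ι → Set P} {p : P} : p ∈ fex φ ↔ ∃ i, p ∈ φ i := by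
  rw [fex, triv_fnot, triv_fall]
  simp only [triv_fnot, not_forall, not_not]

theorem triv_fiff {φ ψ : Set P} {p : P} : p ∈ fiff φ ψ ↔ (p ∈ φ ↔ p ∈ ψ) := by
  rw [fiff, triv_fand, triv_fimp, triv_fimp]
  tauto

theorem triv_for' {φ ψ : Set P} {p : P} : p ∈ for' φ ψ ↔ (p ∈ φ ∨ p ∈ ψ) := by
  rw [for', triv_fnot, triv_fand, triv_fnot, triv_fnot]
  tauto

omit [Preorder P] [Subsingleton P] in
theorem triv_fground {h : Prop} {p : P} : p ∈ (fground h : Set P) ↔ h := Iff.rfl

theorem triv_meets {N : Set P} {p : P} : p ∈ meets N ↔ p ∈ N := by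
  constructor
  · intro h
    obtain ⟨r, _, s, hs, _⟩ := h p le_rfl
    rwa [Subsingleton.elim p s]
  · exact meets_of_mem

theorem triv_thru {z : ℕ → Set P} {u : List Bool} {p : P} :
    p ∈ ThruN z u ↔ Thru (fun n => p ∈ z n) u := by
  simp only [ThruN, Thru, triv_fall, triv_fiff, triv_meets, triv_fground]

theorem triv_codes {c : ℕ → Finset (List Bool)} {z₁ z₂ : ℕ → Set P} {p : P} :
    p ∈ CodesN c z₁ z₂ ↔ Codes c (fun n => p ∈ z₁ n) (fun n => p ∈ z₂ n) := by
  simp only [CodesN, Codes, triv_fall, triv_fiff, triv_meets, triv_fex, triv_fand, triv_fground,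
    triv_thru]

theorem triv_cover {W : Type} {c : W → ℕ → Finset (List Bool)} {p : P} :
    p ∈ CoverN (P := P) W c ↔ Cover W c := by
  simp only [CoverN, Cover, triv_fall, triv_fex, triv_for', triv_codes]
  constructor
  · intro h z₁ z₂
    exact h (fun n => {_q | z₁ n}) (fun n => {_q | z₂ n})
  · intro h z₁ z₂
    exact h (fun n => p ∈ z₁ n) (fun n => p ∈ z₂ n)

theorem triv_full {T : List (Fin 3) → Set P} {p : P} : p ∈ FullN T ↔ Full fun t => p ∈ T t := by
  simp only [FullN, Full, triv_fall, triv_fand, triv_meets, triv_fimp, triv_fex]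

theorem triv_avoid {W : Type} {p : P} : p ∈ AvoidN P W ↔ Avoid W := by
  simp only [AvoidN, Avoid, triv_fall, triv_fex, triv_fimp, triv_fnot, triv_fand, triv_meets,
    triv_full]
  constructor
  · intro h A hA
    obtain ⟨z, hz, hz'⟩ := h (fun w t => {_q | A w t}) (fun w T hT => hA w (fun t => p ∈ T t) hT)
    have h1 : ∀ n, ∃ i, p ∈ z n i := by
      intro n
      have := hz.1 n
      rw [triv_fex] at this
      simpa only [triv_meets] using this
    choose y hy using h1
    have h2 : ∀ n i, p ∈ z n i → y n = i := by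
      intro n i hi
      have := hz.2 n (y n) i
      rw [triv_fimp] at this
      exact this ⟨triv_meets.2 (hy n), triv_meets.2 hi⟩
    refine ⟨y, fun w => ?_⟩
    obtain ⟨s, hs, hs'⟩ := hz' w
    refine ⟨s, fun n hn => h2 n _ ?_, hs'⟩
    have := hs n hn
    exact triv_meets.1 this
  · intro h A hA
    obtain ⟨z, hz⟩ := h (fun w t => p ∈ A w t) (fun w T hT => hA w (fun t => {_q | T t}) hT)
    refine ⟨fun n i => {_q | z n = i}, ⟨fun n => ?_, fun n i j => ?_⟩, fun w => ?_⟩
    · rw [triv_fex]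
      exact ⟨z n, triv_meets.2 rfl⟩
    · rw [triv_fimp]
      intro hij
      have h1 : p ∈ {_q : P | z n = i} := triv_meets.1 hij.1
      have h2 : p ∈ {_q : P | z n = j} := triv_meets.1 hij.2
      have h3 : z n = i := h1
      have h4 : z n = j := h2
      exact h3.symm.trans h4
    · obtain ⟨s, hs, hs'⟩ := hz w
      exact ⟨s, fun n hn => triv_meets.2 (hs n hn), hs'⟩

end Pool.Agent.Helper79K.TS
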