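import Mathlib
import Pool.Agent.Helper79K.TS.Smooth

/-!
Consequences of the covering property and of the avoidance property.
-/

set_option autoImplicit false

namespace Pool.Agent.Helper79K.TS

open Set Cardinal Topology Filter

variable {W : Type} {c : W → ℕ → Finset (List Bool)}

open Classical in
/-- the function with a given code -/
noncomputable def ev (c : ℕ → Finset (List Bool)) (z : ℕ → Bool) : ℕ → Bool :=
  fun n => decide (∃ u ∈ c n, Thru (fun i => z i = true) u)

theorem ev_of_codes {c : ℕ → Finset (List Bool)} {z₁ z₂ : ℕ → Bool}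
    (h : Codes c (fun i => z₁ i = true) (fun i => z₂ i = true)) : ev c z₁ = z₂ := by
  classical
  funext n
  have h1 := h n
  simp only [ev]
  rw [Bool.eq_iff_iff, decide_eq_true_iff]
  exact h1.symm

theorem cover_ev (h : Cover W c) (z₁ z₂ : ℕ → Bool) :
    ∃ w, ev (c w) z₁ = z₂ ∨ ev (c w) z₂ = z₁ := by
  obtain ⟨w, hw⟩ := h (fun i => z₁ i = true) (fun i => z₂ i = true)
  exact ⟨w, hw.imp ev_of_codes ev_of_codes⟩

theorem continuous_ev (c : ℕ → Finset (List Bool)) : Continuous (ev c) := by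
  classical
  refine continuous_pi fun n => ?_
  let N := (c n).sup List.length
  have h1 : ∀ z z' : ℕ → Bool, (∀ i < N, z i = z' i) → ev c z n = ev c z' n := by
    intro z z' hz
    simp only [ev]
    congr 1
    apply propext
    refine exists_congr fun u => and_congr_right fun hu => forall₂_congr fun i hi => ?_
    have h2 : i < N := hi.trans_le (Finset.le_sup (f := List.length) hu)
    simp only [hz i h2]
  let g : (Fin N → Bool) → Bool := fun v => ev c (fun i => if h : i < N then v ⟨i, h⟩ else false) n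
  have h2 : (fun z => ev c z n) = g ∘ fun z (i : Fin N) => z i := by
    funext z
    apply h1
    intro i hi
    simp [hi]
  rw [h2]
  exact continuous_of_discreteTopology.comp
    (continuous_pi fun i => continuous_apply (i : ℕ))

theorem mk_cantor : #(ℕ → Bool) = 𝔠 := by
  simp

theorem infinite_of_cover (h : Cover W c) : Infinite W := by
  classical
  by_contra hcon
  rw [not_infinite_iff_finite] at hcon
  have := Fintype.ofFinite W
  obtain ⟨n, hn⟩ : ∃ n, n = Fintype.card W := ⟨_, rfl⟩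
  have hinf : Infinite (ℕ → Bool) := by
    rw [Cardinal.infinite_iff, mk_cantor]
    exact Cardinal.aleph0_le_continuum
  let em : Fin (2 * n + 1) → (ℕ → Bool) := fun i => Infinite.natEmbedding (ℕ → Bool) i
  have hem : Function.Injective em := fun i j hij =>
    Fin.ext ((Infinite.natEmbedding (ℕ → Bool)).injective hij)
  choose w hw using fun p : Fin (2 * n + 1) × Fin (2 * n + 1) => cover_ev h (em p.1) (em p.2)
  let F : Fin (2 * n + 1) × Fin (2 * n + 1) → Fin (2 * n + 1) × (W × Bool) := fun p =>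
    if ev (c (w p)) (em p.1) = em p.2 then (p.1, w p, true) else (p.2, w p, false)
  have hF : Function.Injective F := by
    rintro ⟨a, b⟩ ⟨a', b'⟩ hab
    simp only [F] at hab
    split_ifs at hab with h1 h2 h3
    · simp only [Prod.mk.injEq, and_true] at hab
      obtain ⟨rfl, hw'⟩ := hab
      rw [← hw'] at h2
      exact Prod.ext rfl (hem (h1.symm.trans h2))
    · simp at hab
    · simp at hab
    · simp only [Prod.mk.injEq, and_true] at hab
      obtain ⟨rfl, hw'⟩ := hab
      have h4 := (hw (a, b)).resolve_left h1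
      have h5 := (hw (a', b)).resolve_left h3
      rw [← hw'] at h5
      exact Prod.ext (hem (h4.symm.trans h5)) rfl
  have h1 := Fintype.card_le_of_injective F hF
  simp only [Fintype.card_prod, Fintype.card_fin, Fintype.card_bool, ← hn] at h1
  nlinarith

theorem mk_lt_of_avoid (h : Avoid W) : #W < 𝔠 := by
  classical
  by_contra hcon
  push Not at hcon
  have h1 : #(ℕ → Fin 3) ≤ #W := by
    refine le_trans (le_of_eq ?_) hcon
    simp only [Cardinal.mk_pi, Cardinal.prod_const, Cardinal.lift_id, Cardinal.mk_fin,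
      Cardinal.mk_nat]
    exact Cardinal.nat_power_aleph0 (by norm_num)
  obtain ⟨g⟩ := h1
  obtain ⟨z, hz⟩ := h (fun w t => ∃ z, g z = w ∧ Pre z t) (by
    intro w T hT
    by_contra hcon
    push Not at hcon
    obtain ⟨u, hu⟩ := hT.2 [] hT.1
    obtain ⟨z₀, hz₀, hz₀'⟩ := hcon _ (hu 0)
    obtain ⟨z₁, hz₁, hz₁'⟩ := hcon _ (hu 1)
    have h2 : z₀ = z₁ := g.injective (hz₀.trans hz₁.symm)
    have h3 := hz₀'.last
    have h4 := hz₁'.last
    rw [h2, h4] at h3
    exact absurd h3 (by decide))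
  obtain ⟨s, hs, hs'⟩ := hz (g z)
  exact hs' ⟨z, rfl, hs⟩

theorem mk_prod_le {α β : Type} {κ : Cardinal.{0}} (hκ : ℵ₀ ≤ κ) (hα : #α ≤ κ) (hβ : #β ≤ κ) :
    #(α × β) ≤ κ := by
  rw [Cardinal.mk_prod, Cardinal.lift_id, Cardinal.lift_id]
  exact (mul_le_mul' hα hβ).trans (Cardinal.mul_eq_self hκ).le

theorem mk_union_le' {α ι : Type} {κ : Cardinal.{0}} (hκ : ℵ₀ ≤ κ) (hι : #ι ≤ κ) (S : ι → Set α)
    (hS : ∀ i, #(S i) ≤ κ) : #(⋃ i, S i) ≤ κ :=
  (Cardinal.mk_iUnion_le _).trans ((mul_le_mul' hι (ciSup_le' hS)).trans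
    (Cardinal.mul_eq_self hκ).le)

theorem continuum_le_of_cover (h : Cover W c) : 𝔠 ≤ Order.succ #W := by
  classical
  have := infinite_of_cover h
  have hinf : ℵ₀ ≤ #W := Cardinal.aleph0_le_mk W
  by_contra hcon
  push Not at hcon
  have hle : Order.succ #W ≤ #(ℕ → Bool) := by
    rw [mk_cantor]
    exact hcon.le
  obtain ⟨A, hA⟩ := Cardinal.le_mk_iff_exists_set.1 hle
  have hinf' : ℵ₀ ≤ Order.succ #W := hinf.trans (Order.le_succ _)
  have h1 : #(⋃ p : W × A, ({ev (c p.1) p.2} : Set (ℕ → Bool))) ≤ Order.succ #W := by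
    refine mk_union_le' hinf' (mk_prod_le hinf' (Order.le_succ _) hA.le) _ fun p => ?_
    rw [Cardinal.mk_singleton]
    exact one_le_aleph0.trans hinf'
  obtain ⟨y, hy⟩ : ∃ y, y ∉ ⋃ p : W × A, ({ev (c p.1) p.2} : Set (ℕ → Bool)) := by
    by_contra hcon2
    push Not at hcon2
    rw [eq_univ_of_forall hcon2, Cardinal.mk_univ, mk_cantor] at h1
    exact absurd hcon (not_lt.2 h1)
  obtain ⟨a, haA, ha⟩ : ∃ a ∈ A, a ∉ range fun w => ev (c w) y := by
    by_contra hcon2
    push Not at hcon2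
    have h2 : #A ≤ #W := (Cardinal.mk_le_mk_of_subset hcon2).trans Cardinal.mk_range_le
    rw [hA] at h2
    exact absurd (Order.lt_succ #W) (not_lt.2 h2)
  obtain ⟨w, hw | hw⟩ := cover_ev h a y
  · exact hy (mem_iUnion.2 ⟨(w, ⟨a, haA⟩), hw.symm⟩)
  · exact ha ⟨w, hw⟩

/-! ### No cover by graphs of differentiable functions -/

theorem not_covered (h : Cover W c) (h' : Avoid W) : ¬ Covered {f | Differentiable ℝ f} := by
  classical
  rintro ⟨F, hF, hFc, hcov⟩
  have := infinite_of_cover h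
  have hinf : ℵ₀ ≤ #W := Cardinal.aleph0_le_mk W
  have h1 : #F ≤ #W := Order.lt_succ_iff.1 (hFc.trans_le (continuum_le_of_cover h))
  have h2 : #(F × Bool) ≤ #W := mk_prod_le hinf h1
    ((Cardinal.lt_aleph0_of_finite Bool).le.trans hinf)
  obtain ⟨φ⟩ := h2
  -- the two digit maps
  let a : Fin 3 → Fin 10 := ![0, 3, 9]
  let b : Fin 3 → Fin 10 := ![0, 9, 3]
  let R : F × Bool → (ℕ → Fin 3) → Prop := fun i z =>
    if i.2 then i.1.1 (dg a z) = dg b z else i.1.1 (dg b z) = dg a z
  obtain ⟨z, hz⟩ := h' (fun w t => ∃ i z, φ i = w ∧ R i z ∧ Pre z t) (by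
    intro w T hT
    by_contra hcon
    push Not at hcon
    obtain ⟨i, z₀, hi, -, -⟩ := hcon [] hT.1
    have h3 : ∀ t, T t → ∃ z, R i z ∧ Pre z t := by
      intro t ht
      obtain ⟨i', z', hi', h4, h5⟩ := hcon t ht
      have h6 : i' = i := φ.injective (hi'.trans hi.symm)
      rw [h6] at h4
      exact ⟨z', h4, h5⟩
    obtain ⟨⟨f, hf⟩, v⟩ := i
    have hfd : Differentiable ℝ f := hF hf
    cases v with
    | true =>
      obtain ⟨t, ht, ht'⟩ := no_full hfd (a := a) (b := b) (j := 1) (j' := 2) rfl rfl rfl rfl rfl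
        rfl hT
      obtain ⟨z', h4, h5⟩ := h3 t ht
      exact ht' z' (by simpa [R] using h4) h5
    | false =>
      obtain ⟨t, ht, ht'⟩ := no_full hfd (a := b) (b := a) (j := 2) (j' := 1) rfl rfl rfl rfl rfl
        rfl hT
      obtain ⟨z', h4, h5⟩ := h3 t ht
      exact ht' z' (by simpa [R] using h4) h5)
  obtain ⟨f, hf, hfz⟩ := hcov (dg a z) (dg b z)
  rcases hfz with hfz | hfz
  · obtain ⟨s, hs, hs'⟩ := hz (φ (⟨f, hf⟩, true))
    exact hs' ⟨_, z, rfl, by simpa [R] using hfz, hs⟩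
  · obtain ⟨s, hs, hs'⟩ := hz (φ (⟨f, hf⟩, false))
    exact hs' ⟨_, z, rfl, by simpa [R] using hfz, hs⟩

/-! ### The cover by graphs of continuous functions -/

/-- a compact set which is the graph of a partial function is contained in the graph of a
continuous function -/
theorem graph_ext {Γ : Set (ℝ × ℝ)} (hΓ : IsCompact Γ)
    (h : ∀ p ∈ Γ, ∀ p' ∈ Γ, p.1 = p'.1 → p.2 = p'.2) :
    ∃ f : ℝ → ℝ, Continuous f ∧ ∀ p ∈ Γ, f p.1 = p.2 := by
  have : CompactSpace Γ := isCompact_iff_compactSpace.1 hΓ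
  let e : Γ → ℝ := fun p => p.1.1
  have he : Continuous e := continuous_fst.comp continuous_subtype_val
  have hinj : Function.Injective e := by
    intro p q hpq
    exact Subtype.ext (Prod.ext hpq (h _ p.2 _ q.2 hpq))
  obtain ⟨g, hg⟩ := ContinuousMap.exists_extension' (he.isClosedEmbedding hinj)
    (⟨fun p : Γ => p.1.2, continuous_snd.comp continuous_subtype_val⟩ : C(Γ, ℝ))
  exact ⟨g, g.continuous, fun p hp => congrFun hg ⟨p, hp⟩⟩

/-- an enumeration of the rational numbers -/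
noncomputable def rq (n : ℕ) : ℝ := ((exists_surjective_nat ℚ).choose n : ℝ)

theorem rq_surj (r : ℚ) : ∃ n, rq n = r := by
  obtain ⟨n, hn⟩ := (exists_surjective_nat ℚ).choose_spec r
  exact ⟨n, by rw [rq, hn]⟩

open Classical in
/-- the Dedekind cut of `x` -/
noncomputable def cut (x : ℝ) : ℕ → Bool := fun n => decide (rq n < x)

open Classical in
/-- the other Dedekind cut of `x` -/
noncomputable def cut' (x : ℝ) : ℕ → Bool := fun n => decide (rq n ≤ x)

theorem cut_injective : Function.Injective cut := by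
  classical
  have key : ∀ x y : ℝ, x < y → cut x ≠ cut y := by
    intro x y hxy heq
    obtain ⟨r, hr1, hr2⟩ := exists_rat_btwn hxy
    obtain ⟨n, hn⟩ := rq_surj r
    have h1 := congrFun heq n
    simp only [cut, hn] at h1
    rw [decide_eq_decide] at h1
    exact absurd (h1.2 hr2) (not_lt.2 hr1.le)
  intro x y hxy
  rcases lt_trichotomy x y with h | h | h
  · exact absurd hxy (key x y h)
  · exact h
  · exact absurd hxy.symm (key y x h)

theorem tendsto_cut_left (x : ℝ) : Tendsto cut (𝓝[≤] x) (𝓝 (cut x)) := by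
  classical
  rw [tendsto_pi_nhds]
  intro n
  apply tendsto_nhds_of_eventually_eq
  by_cases h : rq n < x
  · have h1 : ∀ᶠ t in 𝓝[≤] x, rq n < t := nhdsWithin_le_nhds (lt_mem_nhds h)
    filter_upwards [h1] with t ht
    simp [cut, h, ht]
  · filter_upwards [self_mem_nhdsWithin] with t ht
    have h1 : ¬ rq n < t := fun h2 => h (h2.trans_le ht)
    simp only [cut, h, h1]

theorem tendsto_cut_right (x : ℝ) : Tendsto cut (𝓝[>] x) (𝓝 (cut' x)) := by
  classical
  rw [tendsto_pi_nhds]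
  intro n
  apply tendsto_nhds_of_eventually_eq
  by_cases h : rq n ≤ x
  · filter_upwards [self_mem_nhdsWithin] with t ht
    have h1 : rq n < t := h.trans_lt ht
    simp only [cut, cut', h, h1]
  · have h1 : ∀ᶠ t in 𝓝[>] x, t < rq n := nhdsWithin_le_nhds (gt_mem_nhds (not_le.1 h))
    filter_upwards [h1] with t ht
    have h2 : ¬ rq n < t := not_lt.2 ht.le
    simp only [cut, cut', h, h2]

theorem cut_eq_cut' {x : ℝ} (h : ∀ n, x ≠ rq n) : cut x = cut' x := by
  classical
  funext n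
  simp only [cut, cut']
  rw [decide_eq_decide]
  exact ⟨le_of_lt, fun h1 => lt_of_le_of_ne h1 (h n).symm⟩

theorem continuousAt_cut {x : ℝ} (h : ∀ n, x ≠ rq n) : ContinuousAt cut x := by
  have h1 : 𝓝 x = 𝓝[≤] x ⊔ 𝓝[>] x := by
    rw [← nhdsWithin_union, Iic_union_Ioi, nhdsWithin_univ]
  rw [ContinuousAt, h1, tendsto_sup]
  refine ⟨tendsto_cut_left x, ?_⟩
  rw [cut_eq_cut' h]
  exact tendsto_cut_right x

theorem covered_continuous (h : Cover W c) (hW : #W < 𝔠) : Covered {f | Continuous f} := by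
  classical
  have := infinite_of_cover h
  have hinf : ℵ₀ ≤ #W := Cardinal.aleph0_le_mk W
  have hWN : #(W × ℕ) ≤ #W := mk_prod_le hinf le_rfl (by rw [Cardinal.mk_nat]; exact hinf)
  -- a point outside the images of the rational cuts
  obtain ⟨y₀, hy₀⟩ : ∃ y₀, y₀ ∉ ⋃ p : W × ℕ,
      ({ev (c p.1) (cut (rq p.2)), ev (c p.1) (cut' (rq p.2))} : Set (ℕ → Bool)) := by
    by_contra hcon
    push Not at hcon
    have h1 : #(⋃ p : W × ℕ,
      ({ev (c p.1) (cut (rq p.2)), ev (c p.1) (cut' (rq p.2))} : Set (ℕ → Bool))) ≤ #W :=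
      mk_union_le' hinf hWN _ fun p =>
        (Cardinal.le_aleph0_iff_set_countable.2 ((countable_singleton _).insert _)).trans hinf
    rw [eq_univ_of_forall hcon, Cardinal.mk_univ, mk_cantor] at h1
    exact absurd hW (not_lt.2 h1)
  have hy1 : ∀ w n, ev (c w) (cut (rq n)) ≠ y₀ := fun w n heq =>
    hy₀ (mem_iUnion.2 ⟨(w, n), Or.inl heq.symm⟩)
  have hy2 : ∀ w n, ev (c w) (cut' (rq n)) ≠ y₀ := fun w n heq =>
    hy₀ (mem_iUnion.2 ⟨(w, n), Or.inr heq.symm⟩)
  -- the closed sets
  let C : W → Set ℝ := fun w => {x | ev (c w) (cut x) = y₀}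
  have hCirr : ∀ w, ∀ x ∈ C w, ∀ n, x ≠ rq n := by
    intro w x hx n hn
    have hx' : ev (c w) (cut x) = y₀ := hx
    rw [hn] at hx'
    exact hy1 w n hx'
  have hCcl : ∀ w, IsClosed (C w) := by
    intro w
    rw [← closure_subset_iff_isClosed]
    intro x hx
    have h1 : C w = (C w ∩ Iic x) ∪ (C w ∩ Ioi x) := by
      rw [← inter_union_distrib_left, Iic_union_Ioi, inter_univ]
    rw [h1, closure_union] at hx
    have hlim : ∀ (S : Set ℝ) (y : ℕ → Bool), x ∈ closure (C w ∩ S) →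
        Tendsto cut (𝓝[S] x) (𝓝 y) → ev (c w) y = y₀ := by
      intro S y hS hy
      have hne : (𝓝[C w ∩ S] x).NeBot := mem_closure_iff_nhdsWithin_neBot.1 hS
      have h2 : Tendsto (fun t => ev (c w) (cut t)) (𝓝[C w ∩ S] x) (𝓝 (ev (c w) y)) :=
        ((continuous_ev (c w)).tendsto y).comp
          (hy.mono_left (nhdsWithin_mono x inter_subset_right))
      have h3 : Tendsto (fun t => ev (c w) (cut t)) (𝓝[C w ∩ S] x) (𝓝 y₀) := by
        apply tendsto_nhds_of_eventually_eq
        filter_upwards [self_mem_nhdsWithin] with t ht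
        exact ht.1
      exact tendsto_nhds_unique h2 h3
    rcases hx with hx | hx
    · exact hlim _ _ hx (tendsto_cut_left x)
    · have h2 := hlim _ _ hx (tendsto_cut_right x)
      by_cases hr : ∃ n, x = rq n
      · obtain ⟨n, rfl⟩ := hr
        exact absurd h2 (hy2 w n)
      · push Not at hr
        rw [← cut_eq_cut' hr] at h2
        exact h2
  -- the compact sets
  let K : (W × ℕ) ⊕ W → Set ℝ := fun v => match v with
    | Sum.inl p => C p.1 ∩ Icc (-(p.2 : ℝ)) p.2
    | Sum.inr w => {x | ev (c w) y₀ = cut x}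
  have hKs : ∀ w, (K (Sum.inr w)).Subsingleton := by
    intro w x hx y hy
    have hx' : ev (c w) y₀ = cut x := hx
    have hy' : ev (c w) y₀ = cut y := hy
    exact cut_injective (hx'.symm.trans hy')
  have hKc : ∀ v, IsCompact (K v) := by
    rintro (p | w)
    · exact isCompact_Icc.inter_left (hCcl _)
    · exact (hKs w).finite.isCompact
  have hKcont : ∀ v, ContinuousOn cut (K v) := by
    rintro (p | w)
    · intro x hx
      exact (continuousAt_cut (hCirr _ x hx.1)).continuousWithinAt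
    · exact (hKs w).continuousOn _
  have hKcov : ∀ x, ∃ v, x ∈ K v := by
    intro x
    obtain ⟨w, hw | hw⟩ := cover_ev h (cut x) y₀
    · obtain ⟨N, hN⟩ := exists_nat_ge |x|
      exact ⟨Sum.inl (w, N), hw, abs_le.1 hN⟩
    · exact ⟨Sum.inr w, hw⟩
  let Γ : W × ((W × ℕ) ⊕ W) × ((W × ℕ) ⊕ W) → Set (ℝ × ℝ) := fun i =>
    (K i.2.1 ×ˢ K i.2.2) ∩ {p | ev (c i.1) (cut p.1) = cut p.2}
  have hΓ : ∀ i, ∃ f : ℝ → ℝ, Continuous f ∧ ∀ p ∈ Γ i, f p.1 = p.2 := by
    intro i
    apply graph_ext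
    · have h1 : ContinuousOn (fun p : ℝ × ℝ => (ev (c i.1) (cut p.1), cut p.2))
          (K i.2.1 ×ˢ K i.2.2) := by
        refine ContinuousOn.prodMk ?_ ?_
        · exact (continuous_ev _).comp_continuousOn ((hKcont i.2.1).comp continuousOn_fst
            fun p hp => hp.1)
        · exact (hKcont i.2.2).comp continuousOn_snd fun p hp => hp.2
      have h2 : IsClosed (K i.2.1 ×ˢ K i.2.2 ∩
          (fun p : ℝ × ℝ => (ev (c i.1) (cut p.1), cut p.2)) ⁻¹' {q | q.1 = q.2}) :=
        h1.preimage_isClosed_of_isClosed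
          ((hKc _).isClosed.prod (hKc _).isClosed) (isClosed_eq continuous_fst continuous_snd)
      exact ((hKc i.2.1).prod (hKc i.2.2)).of_isClosed_subset h2 inter_subset_left
    · rintro ⟨x, y⟩ ⟨-, hp⟩ ⟨x', y'⟩ ⟨-, hp'⟩ hxx
      change x = x' at hxx
      change ev (c i.1) (cut x) = cut y at hp
      change ev (c i.1) (cut x') = cut y' at hp'
      rw [← hxx] at hp'
      exact cut_injective (hp.symm.trans hp')
  choose f hf1 hf2 using hΓ
  refine ⟨range f, ?_, ?_, ?_⟩
  · rintro _ ⟨i, rfl⟩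
    exact hf1 i
  · refine lt_of_le_of_lt (Cardinal.mk_range_le.trans ?_) hW
    have h1 : #((W × ℕ) ⊕ W) ≤ #W := by
      rw [Cardinal.mk_sum, Cardinal.lift_id, Cardinal.lift_id]
      exact Cardinal.add_le_of_le hinf hWN le_rfl
    exact mk_prod_le hinf le_rfl (mk_prod_le hinf h1 h1)
  · intro x y
    obtain ⟨u, hu⟩ := hKcov x
    obtain ⟨v, hv⟩ := hKcov y
    obtain ⟨w, hw | hw⟩ := cover_ev h (cut x) (cut y)
    · exact ⟨f (w, u, v), mem_range_self _, Or.inl (hf2 (w, u, v) (x, y) ⟨⟨hu, hv⟩, hw⟩)⟩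
    · exact ⟨f (w, v, u), mem_range_self _, Or.inr (hf2 (w, v, u) (y, x) ⟨⟨hv, hu⟩, hw⟩)⟩

end Pool.Agent.Helper79K.TS
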